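import Pool.Agent.Q314.PS.Stmts

set_option autoImplicit false

namespace Pool.Agent.Q314.PS

open Filter Topology

theorem card_emb (N M : ℕ) : Fintype.card (Fin M ↪o Fin N) = N.choose M := by
  have e : (Fin M ↪o Fin N) ≃ {s : Finset (Fin N) // s.card = M} :=
    { toFun := fun σ => ⟨Finset.univ.map σ.toEmbedding, by simp⟩
      invFun := fun s => s.1.orderEmbOfFin s.2
      left_inv := by
        intro σ
        exact (Finset.orderEmbOfFin_unique' _ (fun x => by simp)).symm
      right_inv := by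
        intro s
        apply Subtype.ext
        simp }
  rw [Fintype.card_congr e, Fintype.card_finset_len, Fintype.card_fin]

theorem Z_pos {N M : ℕ} (X : Fin N → Bool) (σ : Fin M ↪o Fin N) :
    0 < Z X (fun j => X (σ j)) := by
  unfold Z
  rw [Nat.card_pos_iff]
  exact ⟨⟨⟨σ, fun j => rfl⟩⟩, inferInstance⟩

/-- the mean of `log Z` and the logarithm of the mean in terms of `T` -/
theorem gap (hInd : TaskInd) (hPlant : TaskPlant) (hMean : TaskMean) (hJ : TaskJensen)
    (N M : ℕ) (hN : 0 < N) (hM : M ≤ N) (ε : ℝ) :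
    (∑ X : Fin N → Bool, ∑ σ : Fin M ↪o Fin N, Real.log (Z X (fun j => X (σ j)))) /
      (2 ^ N * (Fintype.card (Fin M ↪o Fin N) : ℝ)) ≤
    Real.log (T ε N M / (N.choose M : ℝ)) - ε * ((M : ℝ) * ((M : ℝ) - 1) / N) := by
  have hch : (0 : ℝ) < (N.choose M : ℝ) := by exact_mod_cast Nat.choose_pos hM
  have hcard : (Fintype.card ((Fin N → Bool) × (Fin M ↪o Fin N)) : ℝ) =
      2 ^ N * (N.choose M : ℝ) := by
    rw [Fintype.card_prod, card_emb]
    simp
  haveI : Nonempty (Fin M ↪o Fin N) := by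
    rw [← Fintype.card_pos_iff, card_emb]
    exact Nat.choose_pos hM
  have h := hJ ((Fin N → Bool) × (Fin M ↪o Fin N))
    (fun p => (Z p.1 (fun j => p.1 (p.2 j)) : ℝ))
    (fun p => ε * adj false (List.ofFn (ind p.2)))
    (fun p => by exact_mod_cast Z_pos p.1 p.2)
  rw [hcard] at h
  simp only [Fintype.sum_prod_type] at h
  rw [hPlant N M ε] at h
  have h2 : (∑ _x : Fin N → Bool, ∑ σ : Fin M ↪o Fin N,
      ε * (adj false (List.ofFn (ind σ)) : ℝ)) / (2 ^ N * (N.choose M : ℝ)) =
      ε * ((M : ℝ) * ((M : ℝ) - 1) / N) := by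
    have h3 := hInd N M (fun a => (adj false (List.ofFn a) : ℝ))
    have h4 := hMean N M
    rw [← h3] at h4
    have hN' : (0 : ℝ) < N := by exact_mod_cast hN
    rw [Finset.sum_const, ← Finset.mul_sum, nsmul_eq_mul, Finset.card_univ]
    have h5 : ((Fintype.card (Fin N → Bool) : ℕ) : ℝ) = 2 ^ N := by simp
    rw [h5]
    rw [mul_div_mul_left _ _ (by positivity)]
    have h6 : (∑ σ : Fin M ↪o Fin N, (adj false (List.ofFn (ind σ)) : ℝ)) =
        (M : ℝ) * ((M : ℝ) - 1) * (N.choose M : ℝ) / N := by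
      rw [eq_div_iff hN'.ne']
      exact h4
    rw [h6]
    field_simp
  rw [h2] at h
  rw [card_emb]
  have h7 : (2 : ℝ) ^ N * T ε N M / (2 ^ N * (N.choose M : ℝ)) = T ε N M / (N.choose M : ℝ) :=
    mul_div_mul_left _ _ (by positivity)
  rw [h7] at h
  exact h

theorem mean_Z (hPlant : TaskPlant) (N M : ℕ) :
    (∑ X : Fin N → Bool, ∑ σ : Fin M ↪o Fin N, (Z X (fun j => X (σ j)) : ℝ)) /
      (2 ^ N * (Fintype.card (Fin M ↪o Fin N) : ℝ)) = T 0 N M / (N.choose M : ℝ) := by
  have h := hPlant N M 0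
  simp only [zero_mul, Real.exp_zero, mul_one] at h
  rw [h, card_emb]
  exact mul_div_mul_left _ _ (by positivity)

theorem main (hInd : TaskInd) (hPlant : TaskPlant) (hPath : TaskPath) (hSuper : TaskSuper)
    (hLower : TaskLower) (hMean : TaskMean) (hJ : TaskJensen) (hIVT : TaskIVT) (hRho : TaskRho)
    (α : ℝ) (h0 : 0 < α) (h1 : α < 1) :
    ∃ c > 0, ∃ δ > 0, ∃ N0 : ℕ, ∀ N ≥ N0, ∀ M : ℕ, |(M : ℝ) - α * N| ≤ δ * N →
      (∑ X : Fin N → Bool, ∑ σ : Fin M ↪o Fin N, Real.log (Z X (fun j => X (σ j)))) /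
        (2 ^ N * (Fintype.card (Fin M ↪o Fin N) : ℝ)) ≤
      Real.log ((∑ X : Fin N → Bool, ∑ σ : Fin M ↪o Fin N, (Z X (fun j => X (σ j)) : ℝ)) /
        (2 ^ N * (Fintype.card (Fin M ↪o Fin N) : ℝ))) - c * N := by
  obtain ⟨u, hu0, hu1, hα⟩ := hIVT α h0 h1
  have hρ := hRho u hu0 hu1
  rw [hα] at hρ
  obtain ⟨C, hC, ε0, hε0, hS⟩ := hSuper u hu0 hu1
  set Δ := α ^ 2 - rho u with hΔ
  have hΔ0 : 0 < Δ := by rw [hΔ]; linarith
  set ε := min ε0 (Δ / (4 * C)) with hε
  have hεpos : 0 < ε := lt_min hε0 (by positivity)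
  have hCε : C * ε ≤ Δ / 4 := by
    have : ε ≤ Δ / (4 * C) := min_le_right _ _
    calc C * ε ≤ C * (Δ / (4 * C)) := by gcongr
      _ = Δ / 4 := by field_simp
  obtain ⟨δ1, hδ1, N1, hL⟩ := hLower u hu0 hu1 (ε * Δ / 8) (by positivity)
  rw [hα] at hL
  obtain ⟨H, hHpos, hH1, hH0, hHs⟩ := hS ε hεpos.le (min_le_left _ _)
  have hy : 0 < yy u := by unfold yy; have : 0 < 1 - u := by linarith
                           positivity
  have hlam : 0 < lam u := by unfold lam; have : 0 < 1 - u := by linarith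
                              positivity
  have hsq : 0 < Real.sqrt (yy u) := Real.sqrt_pos.2 hy
  refine ⟨ε * Δ / 8, by positivity, min δ1 (min (Δ / 16) (min (1 - α) (α / 2))),
    lt_min hδ1 (lt_min (by positivity) (lt_min (by linarith) (by linarith))),
    max N1 (max 1 (⌈8 / Δ⌉₊)), ?_⟩
  intro N hN M hMN
  have hN1 : N1 ≤ N := le_trans (le_max_left _ _) hN
  have hN2 : 1 ≤ N := le_trans (le_trans (le_max_left _ _) (le_max_right _ _)) hN
  have hN3 : 8 / Δ ≤ N := by
    have : ⌈8 / Δ⌉₊ ≤ N := le_trans (le_trans (le_max_right _ _) (le_max_right _ _)) hN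
    exact le_trans (Nat.le_ceil _) (by exact_mod_cast this)
  have hNpos : (0 : ℝ) < N := by exact_mod_cast hN2
  set δ := min δ1 (min (Δ / 16) (min (1 - α) (α / 2))) with hδ
  have d1 : δ ≤ δ1 := min_le_left _ _
  have d2 : δ ≤ Δ / 16 := le_trans (min_le_right _ _) (min_le_left _ _)
  have d3 : δ ≤ 1 - α := le_trans (min_le_right _ _) (le_trans (min_le_right _ _) (min_le_left _ _))
  have d4 : δ ≤ α / 2 := le_trans (min_le_right _ _) (le_trans (min_le_right _ _) (min_le_right _ _))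
  have hδpos : 0 < δ :=
    lt_min hδ1 (lt_min (by positivity) (lt_min (by linarith) (by linarith)))
  have hMl : (α - δ) * N ≤ M := by
    have := (abs_le.1 hMN).1
    linarith
  have hMu : (M : ℝ) ≤ N := by
    have := (abs_le.1 hMN).2
    nlinarith
  have hMle : M ≤ N := by exact_mod_cast hMu
  have hlow := hL N hN1 M (le_trans hMN (by gcongr))
  have hup : T ε N M * yy u ^ M ≤
      lam u ^ N * Real.exp ((rho u * ε + C * ε ^ 2) * N) := by
    have := hPath ε (Real.sqrt (yy u)) (lam u * Real.exp (rho u * ε + C * ε ^ 2)) 1 H hsq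
      (by positivity) one_pos hHpos hH1 hHs N M
    rw [pow_mul, Real.sq_sqrt hy.le, hH0, div_one, mul_one, mul_pow, ← Real.exp_nat_mul] at this
    rwa [mul_comm (N : ℝ)] at this
  have hyM : 0 < yy u ^ M := pow_pos hy M
  have hT0 : 0 < T 0 N M := by
    have h : 0 < T 0 N M * yy u ^ M := lt_of_lt_of_le (by positivity) hlow
    by_contra hc
    have : T 0 N M * yy u ^ M ≤ 0 := mul_nonpos_of_nonpos_of_nonneg (not_lt.1 hc) hyM.le
    linarith
  have hch : (0 : ℝ) < (N.choose M : ℝ) := by exact_mod_cast Nat.choose_pos hMle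
  -- comparison of T ε and T 0
  have hratio : T ε N M ≤ T 0 N M * Real.exp ((rho u * ε + C * ε ^ 2 + ε * Δ / 8) * N) := by
    have e1 : T ε N M * yy u ^ M ≤
        (T 0 N M * Real.exp ((rho u * ε + C * ε ^ 2 + ε * Δ / 8) * N)) * yy u ^ M := by
      calc T ε N M * yy u ^ M ≤ lam u ^ N * Real.exp ((rho u * ε + C * ε ^ 2) * N) := hup
        _ = (Real.exp (-(ε * Δ / 8) * N) * lam u ^ N) *
            Real.exp ((rho u * ε + C * ε ^ 2 + ε * Δ / 8) * N) := by
          have : Real.exp ((rho u * ε + C * ε ^ 2) * N) = Real.exp (-(ε * Δ / 8) * N) *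
              Real.exp ((rho u * ε + C * ε ^ 2 + ε * Δ / 8) * N) := by
            rw [← Real.exp_add]; congr 1; ring
          rw [this]; ring
        _ ≤ (T 0 N M * yy u ^ M) * Real.exp ((rho u * ε + C * ε ^ 2 + ε * Δ / 8) * N) := by
          gcongr
        _ = _ := by ring
    exact le_of_mul_le_mul_right e1 hyM
  have hlog : Real.log (T ε N M / (N.choose M : ℝ)) ≤ Real.log (T 0 N M / (N.choose M : ℝ)) +
      (rho u * ε + C * ε ^ 2 + ε * Δ / 8) * N := by
    by_cases hTε : 0 < T ε N M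
    · have : Real.log (T 0 N M / (N.choose M : ℝ)) + (rho u * ε + C * ε ^ 2 + ε * Δ / 8) * N =
          Real.log (T 0 N M / (N.choose M : ℝ) *
            Real.exp ((rho u * ε + C * ε ^ 2 + ε * Δ / 8) * N)) := by
        rw [Real.log_mul (by positivity) (by positivity), Real.log_exp]
      rw [this]
      apply Real.log_le_log (by positivity)
      rw [div_mul_eq_mul_div]
      gcongr
    · exfalso
      -- `T ε ≥ T 0 > 0`
      apply hTε
      refine lt_of_lt_of_le hT0 ?_
      unfold T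
      refine Finset.sum_le_sum (fun a _ => Finset.sum_le_sum (fun b _ => ?_))
      split_ifs with hab
      · have hw : 0 ≤ wt 0 ((List.ofFn a).zip (List.ofFn b)) := by
          generalize (0 : ℤ) = D
          generalize (List.ofFn a).zip (List.ofFn b) = l
          induction l generalizing D with
          | nil => simp only [wt]; split_ifs <;> norm_num
          | cons p r ih =>
            simp only [wt]
            refine mul_nonneg ?_ (ih _)
            rcases p with ⟨p1, p2⟩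
            cases p1 <;> cases p2 <;> simp only [cst] <;> (try split_ifs) <;> norm_num
        apply mul_le_mul_of_nonneg_left _ hw
        apply Real.exp_le_exp.2
        have : (0 : ℝ) ≤ (adj false (List.ofFn a) : ℝ) := by positivity
        nlinarith
      · exact le_rfl
  have hg := gap hInd hPlant hMean hJ N M hN2 hMle ε
  rw [mean_Z hPlant N M]
  refine le_trans hg ?_
  -- final arithmetic
  have hMM : (α ^ 2 - Δ / 8) * N - 1 ≤ (M : ℝ) * ((M : ℝ) - 1) / N := by
    rw [le_div_iff₀ hNpos]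
    have hαδ : 0 < α - δ := by linarith
    have hM0 : (0 : ℝ) ≤ M := by positivity
    have h2 : ((α - δ) * N) * ((α - δ) * N) ≤ (M : ℝ) * M := by
      apply mul_le_mul hMl hMl (by positivity) hM0
    have h3 : (α ^ 2 - Δ / 8) ≤ (α - δ) * (α - δ) := by nlinarith
    have h4 : (α ^ 2 - Δ / 8) * (N * N) ≤ (α - δ) * (α - δ) * (N * N) := by gcongr
    nlinarith
  have hfin : (rho u * ε + C * ε ^ 2 + ε * Δ / 8) * N - ε * ((M : ℝ) * ((M : ℝ) - 1) / N) ≤
      -(ε * Δ / 8 * N) := by
    have h5 : ε * ((α ^ 2 - Δ / 8) * N - 1) ≤ ε * ((M : ℝ) * ((M : ℝ) - 1) / N) := by gcongr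
    have h6 : C * ε ^ 2 * N ≤ Δ / 4 * ε * N := by
      have : C * ε ^ 2 = C * ε * ε := by ring
      rw [this]; gcongr
    have h7 : ε ≤ ε * (Δ / 8 * N) := by
      have : 1 ≤ Δ / 8 * N := by
        have := mul_le_mul_of_nonneg_left hN3 (by positivity : (0 : ℝ) ≤ Δ / 8)
        have e : Δ / 8 * (8 / Δ) = 1 := by field_simp
        linarith
      nlinarith
    have hr : rho u = α ^ 2 - Δ := by rw [hΔ]; ring
    rw [hr]
    nlinarith
  linarith

end Pool.Agent.Q314.PS
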