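import Mathlib

set_option autoImplicit false

/-!
MP_667a4a_pr: strict Jensen gap for the planted random subsequence model. Definitions and
lemmas (blueprint). Prove `theorem taskX (hA : TaskA) ... : TaskX` in
`Pool/Agent/Q314/PS/TaskX.lean`, namespace `Pool.Agent.Q314.PS`, helper lemmas `private` or in a
namespace of their own.

`a, b : {0,1}^N` are the indicators of two embeddings, `D` is the number of picks of `a` minus the
number of picks of `b` so far; `wt` is `2^(-number of letters with different places)`.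
-/

namespace Pool.Agent.Q314.PS

open Filter Topology

/-- the letters of `X` at the places picked by `a` -/
def sel (a X : List Bool) : List Bool := ((a.zip X).filter (fun p => p.1)).map (fun p => p.2)

noncomputable def cst (D : ℤ) (a b : Bool) : ℝ :=
  match a, b with
  | false, false => 1
  | true, true => if D = 0 then 1 else 1 / 2
  | true, false => if 0 ≤ D then 1 else 1 / 2
  | false, true => if D ≤ 0 then 1 else 1 / 2

def stp (a b : Bool) : ℤ := (if a then 1 else 0) - (if b then 1 else 0)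

noncomputable def wt (D : ℤ) : List (Bool × Bool) → ℝ
  | [] => if D = 0 then 1 else 0
  | p :: r => cst D p.1 p.2 * wt (D + stp p.1 p.2) r

/-- number of neighbouring picks, `l`: was the previous place picked -/
def adj (l : Bool) : List Bool → ℕ
  | [] => 0
  | a :: r => (if l && a then 1 else 0) + adj a r

def cnt {N : ℕ} (a : Fin N → Bool) : ℕ := (List.ofFn a).count true

noncomputable def T (ε : ℝ) (N M : ℕ) : ℝ :=
  ∑ a : Fin N → Bool, ∑ b : Fin N → Bool, if cnt a = M ∧ cnt b = M then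
    wt 0 ((List.ofFn a).zip (List.ofFn b)) * Real.exp (ε * adj false (List.ofFn a)) else 0

/-- indicator of the image of `σ` -/
def ind {M N : ℕ} (σ : Fin M ↪o Fin N) (i : Fin N) : Bool := decide (∃ j, σ j = i)

/-- number of occurrences of `Y` in `X` as a subsequence -/
noncomputable def Z {M N : ℕ} (X : Fin N → Bool) (Y : Fin M → Bool) : ℕ :=
  Nat.card {σ : Fin M ↪o Fin N // ∀ j, X (σ j) = Y j}

/-! parameters, `0 < u < 1` -/
noncomputable def lam (u : ℝ) : ℝ := (1 + u) / (1 - u)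
noncomputable def yy (u : ℝ) : ℝ := 2 * u ^ 2 / (1 - u)
noncomputable def al (u : ℝ) : ℝ := 2 * u / ((2 - u) * (1 + u))
noncomputable def rho (u : ℝ) : ℝ := u ^ 2 * (u ^ 2 - u + 2) / ((2 - u) * (1 + u))

/-- embeddings are the 0-1-vectors with `M` ones -/
def TaskInd : Prop := ∀ (N M : ℕ) (f : (Fin N → Bool) → ℝ),
  ∑ σ : Fin M ↪o Fin N, f (ind σ) = ∑ a : Fin N → Bool, if cnt a = M then f a else 0

def TaskSel : Prop := ∀ (N M : ℕ) (σ : Fin M ↪o Fin N) (X : Fin N → Bool),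
  sel (List.ofFn (ind σ)) (List.ofFn X) = List.ofFn (fun j => X (σ j))

/-- induction with the word of pending letters: for `D ≥ 0` and a pending word `p` of length `D`
(`p ++ sel a X = sel b X`), similarly for `D ≤ 0` -/
def TaskCount : Prop := ∀ (N : ℕ) (a b : Fin N → Bool), cnt a = cnt b →
  (Nat.card {X : Fin N → Bool // sel (List.ofFn a) (List.ofFn X) = sel (List.ofFn b) (List.ofFn X)}
    : ℝ) = 2 ^ N * wt 0 ((List.ofFn a).zip (List.ofFn b))

/-- from TaskInd, TaskSel, TaskCount -/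
def TaskPlant : Prop := ∀ (N M : ℕ) (ε : ℝ),
  ∑ X : Fin N → Bool, ∑ σ : Fin M ↪o Fin N,
    (Z X (fun j => X (σ j)) : ℝ) * Real.exp (ε * adj false (List.ofFn (ind σ))) =
  2 ^ N * T ε N M

/-- transfer operator bound, by induction on `N` -/
def TaskPath : Prop := ∀ (ε z Λ h0 : ℝ) (H : ℤ → Bool → ℝ), 0 < z → 0 ≤ Λ → 0 < h0 →
  (∀ D l, 0 < H D l) → (∀ l, h0 ≤ H 0 l) →
  (∀ D l, ∑ a : Bool, ∑ b : Bool, cst D a b * z ^ (a.toNat + b.toNat) *
    Real.exp (ε * (if l && a then 1 else 0)) * H (D + stp a b) a ≤ Λ * H D l) →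
  ∀ N M, T ε N M * z ^ (2 * M) ≤ Λ ^ N * (H 0 false / h0)

/-- `H D l = (r exp (-ε κ±))^|D| exp (ε l a(D))` with `r = √((1-u)/2)`, `a(D) = u/(1+u)` for
`D > 0`, `a(D) = u` for `D ≤ 0`, `κ+ = (ρ - u²/(1+u)²)(1+u)/u²` for `D > 0`,
`κ- = (ρ - u²)(1+u)/u²` for `D < 0`. Only three cases `D ≥ 1`, `D ≤ -1`, `D = 0` (homogeneous),
times `l`; in each the quotient left/right is a smooth function of `ε` with value `λ` and
logarithmic derivative `ρ` at `0` (first order: exact identities in `u`) -/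
def TaskSuper : Prop := ∀ u : ℝ, 0 < u → u < 1 → ∃ C > 0, ∃ ε0 > 0, ∀ ε, 0 ≤ ε → ε ≤ ε0 →
  ∃ H : ℤ → Bool → ℝ, (∀ D l, 0 < H D l) ∧ (∀ l, 1 ≤ H 0 l) ∧ H 0 false = 1 ∧
    ∀ D l, ∑ a : Bool, ∑ b : Bool, cst D a b * (Real.sqrt (yy u)) ^ (a.toNat + b.toNat) *
      Real.exp (ε * (if l && a then 1 else 0)) * H (D + stp a b) a ≤
      lam u * Real.exp (rho u * ε + C * ε ^ 2) * H D l

/-- from TaskPath with `H D l = (√((1-u)/2))^|D|` (equality in every case) -/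
def TaskT0 : Prop := ∀ u : ℝ, 0 < u → u < 1 → ∀ N M, T 0 N M * yy u ^ M ≤ lam u ^ N

/-- from TaskT0 with `u'` near `u`: `d log λ / d log y = α` -/
def TaskChern : Prop := ∀ u : ℝ, 0 < u → u < 1 → ∀ δ > 0, ∃ κ > 0, ∀ N M : ℕ,
  δ * N ≤ |(M : ℝ) - al u * N| → T 0 N M * yy u ^ M ≤ lam u ^ N * Real.exp (-κ * N)

/-- With `A^N(D, 0)` = sum of the weights of all paths of length `N` from `D` to `0` times
`√y^(number of picks)` and `h D = (√((1-u)/2))^|D|`: `λ^N h(0) = ∑_D A^N(0,D) h(D)` and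
`A^N(0,D) ≤ λ^N (√(1-u))^(2|D|)/h(D)`-type tail bound, so some `|D| ≤ R` has
`A^N(0,D) ≥ c λ^N`, and `A^(N+R)(0,0) ≥ A^N(0,D) A^R(D,0)` -/
def TaskRet : Prop := ∀ u : ℝ, 0 < u → u < 1 → ∃ c > 0, ∃ R : ℕ, ∀ N ≥ R,
  c * lam u ^ N ≤ ∑ M ∈ Finset.range (N + 1), T 0 N M * yy u ^ M

/-- concatenation; `a = b` has weight one -/
def TaskConc : Prop := (∀ N₁ M₁ N₂ M₂, T 0 N₁ M₁ * T 0 N₂ M₂ ≤ T 0 (N₁ + N₂) (M₁ + M₂)) ∧
  (∀ N M, M ≤ N → 1 ≤ T 0 N M) ∧ ∀ ε N M, 0 ≤ T ε N M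

/-- from TaskChern, TaskRet, TaskConc: for `N' = ⌊(1-δ')N⌋` some `M'` within `δ N'` of `α N'` has
`T 0 N' M' y^M' ≥ λ^N' e^(-o(N))`; then TaskConc with `T 0 (N-N') (M-M') ≥ 1` -/
def TaskLower : Prop := ∀ u : ℝ, 0 < u → u < 1 → ∀ η > 0, ∃ δ > 0, ∃ N0 : ℕ, ∀ N ≥ N0, ∀ M : ℕ,
  |(M : ℝ) - al u * N| ≤ δ * N → Real.exp (-η * N) * lam u ^ N ≤ T 0 N M * yy u ^ M

/-- mean number of neighbouring picks -/
def TaskMean : Prop := ∀ N M : ℕ,
  (∑ a : Fin N → Bool, if cnt a = M then (adj false (List.ofFn a) : ℝ) else 0) * N =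
    (M : ℝ) * ((M : ℝ) - 1) * (N.choose M : ℝ)

/-- finite Jensen inequality -/
def TaskJensen : Prop := ∀ (ι : Type) [Fintype ι] [Nonempty ι] (z s : ι → ℝ), (∀ i, 0 < z i) →
  (∑ i, Real.log (z i)) / Fintype.card ι ≤
    Real.log ((∑ i, z i * Real.exp (s i)) / Fintype.card ι) - (∑ i, s i) / Fintype.card ι

def TaskIVT : Prop := ∀ α : ℝ, 0 < α → α < 1 → ∃ u, 0 < u ∧ u < 1 ∧ al u = α

def TaskRho : Prop := ∀ u : ℝ, 0 < u → u < 1 → rho u < al u ^ 2

end Pool.Agent.Q314.PS
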