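import Pool.Agent.Q314.PS.Stmts

/-! Two algebraic lemmas (blueprint for `MP_667a4a_pr`). -/

set_option autoImplicit false

namespace Pool.Agent.Q314.PS

theorem taskIVT : TaskIVT := by
  intro α h0 h1
  have hcont : ContinuousOn (fun u : ℝ => α * u ^ 2 + (2 - α) * u - 2 * α) (Set.Icc 0 1) := by
    fun_prop
  have hmem : (0 : ℝ) ∈ Set.Ioo (α * (0 : ℝ) ^ 2 + (2 - α) * 0 - 2 * α)
      (α * (1 : ℝ) ^ 2 + (2 - α) * 1 - 2 * α) := by
    constructor <;> nlinarith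
  obtain ⟨u, hu, hu'⟩ := intermediate_value_Ioo (zero_le_one' ℝ) hcont hmem
  refine ⟨u, hu.1, hu.2, ?_⟩
  have hu1 := hu.1
  have hu2 := hu.2
  have hpos : 0 < (2 - u) * (1 + u) := by
    apply mul_pos <;> linarith
  unfold al
  rw [div_eq_iff hpos.ne']
  simp only at hu'
  linarith [hu']

theorem taskRho : TaskRho := by
  intro u h0 h1
  have hp : 0 < (2 - u) * (1 + u) := by apply mul_pos <;> linarith
  unfold rho al
  rw [div_pow, div_lt_div_iff₀ hp (by positivity)]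
  have hs : 0 < u * (1 - u) := mul_pos h0 (by linarith)
  have hk : (u ^ 2 - u + 2) * ((2 - u) * (1 + u)) = 4 - (u * (1 - u)) ^ 2 := by ring
  have hk' : (u ^ 2 - u + 2) * ((2 - u) * (1 + u)) < 4 := by
    rw [hk]; nlinarith [sq_pos_of_pos hs]
  have h2 : 0 < u ^ 2 * ((2 - u) * (1 + u)) := by positivity
  calc u ^ 2 * (u ^ 2 - u + 2) * ((2 - u) * (1 + u)) ^ 2
      = (u ^ 2 * ((2 - u) * (1 + u))) * ((u ^ 2 - u + 2) * ((2 - u) * (1 + u))) := by ring
    _ < (u ^ 2 * ((2 - u) * (1 + u))) * 4 := mul_lt_mul_of_pos_left hk' h2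
    _ = (2 * u) ^ 2 * ((2 - u) * (1 + u)) := by ring

end Pool.Agent.Q314.PS
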