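import Mathlib
import Pool.Agent.Q314.PS.Stmts

set_option autoImplicit false

namespace Pool.Agent.Q314.PS

open Filter Topology

namespace ChernAux

lemma yy_pos {v : ℝ} (h0 : 0 < v) (h1 : v < 1) : 0 < yy v := by
  unfold yy
  have : 0 < 1 - v := by linarith
  positivity

lemma lam_pos {v : ℝ} (h0 : 0 < v) (h1 : v < 1) : 0 < lam v := by
  unfold lam
  have : 0 < 1 - v := by linarith
  positivity

lemma pow_change {x y : ℝ} (hx : 0 < x) (hy : 0 < y) (M : ℕ) :
    x ^ M = y ^ M * Real.exp (M * (Real.log x - Real.log y)) := by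
  rw [Real.exp_nat_mul, Real.exp_sub, Real.exp_log hx, Real.exp_log hy, ← mul_pow]
  congr 1
  field_simp

lemma deriv_lam {v : ℝ} (h0 : 0 < v) (h1 : v < 1) :
    HasDerivAt (fun v => Real.log (lam v)) (2 / (1 - v ^ 2)) v := by
  have h2 : (1 - v) ≠ 0 := by linarith
  have h3 : (1 + v) ≠ 0 := by linarith
  have h5 : (1 - v ^ 2) ≠ 0 := by
    have : (1 - v ^ 2) = (1 - v) * (1 + v) := by ring
    rw [this]
    exact mul_ne_zero h2 h3
  have ha : HasDerivAt (fun v : ℝ => 1 + v) 1 v := by simpa using (hasDerivAt_id v).const_add 1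
  have hb : HasDerivAt (fun v : ℝ => 1 - v) (-1) v := by simpa using (hasDerivAt_id v).const_sub 1
  have h4 : HasDerivAt lam ((1 * (1 - v) - (1 + v) * (-1)) / (1 - v) ^ 2) v := ha.div hb h2
  have h6 := h4.log (lam_pos h0 h1).ne'
  convert h6 using 1
  unfold lam
  field_simp
  ring

lemma deriv_yy {v : ℝ} (h0 : 0 < v) (h1 : v < 1) :
    HasDerivAt (fun v => Real.log (yy v)) ((2 - v) / (v * (1 - v))) v := by
  have h2 : (1 - v) ≠ 0 := by linarith
  have h3 : v ≠ 0 := h0.ne'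
  have ha : HasDerivAt (fun v : ℝ => 2 * v ^ 2) (2 * (2 * v)) v := by
    have := (hasDerivAt_pow 2 v).const_mul (2 : ℝ)
    simpa using this
  have hb : HasDerivAt (fun v : ℝ => 1 - v) (-1) v := by simpa using (hasDerivAt_id v).const_sub 1
  have h4 : HasDerivAt yy ((2 * (2 * v) * (1 - v) - 2 * v ^ 2 * (-1)) / (1 - v) ^ 2) v := ha.div hb h2
  have h6 := h4.log (yy_pos h0 h1).ne'
  convert h6 using 1
  unfold yy
  field_simp
  ring

lemma comb_deriv {u : ℝ} (h0 : 0 < u) (h1 : u < 1) (β : ℝ) :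
    HasDerivAt (fun v => (Real.log (lam v) - Real.log (lam u)) - (al u + β) * (Real.log (yy v) - Real.log (yy u)))
      (-β * ((2 - u) / (u * (1 - u)))) u := by
  have h2 : HasDerivAt (fun v => (Real.log (lam v) - Real.log (lam u)) -
      (al u + β) * (Real.log (yy v) - Real.log (yy u)))
      (2 / (1 - u ^ 2) - (al u + β) * ((2 - u) / (u * (1 - u)))) u :=
    ((deriv_lam h0 h1).sub_const (Real.log (lam u))).sub
      (((deriv_yy h0 h1).sub_const (Real.log (yy u))).const_mul (al u + β))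
  refine h2.congr_deriv ?_
  unfold al
  have a1 : (1 - u) ≠ 0 := by linarith
  have a2 : (1 + u) ≠ 0 := by linarith
  have a3 : (2 - u) ≠ 0 := by linarith
  have a5 : (1 - u ^ 2) ≠ 0 := by
    have : (1 - u ^ 2) = (1 - u) * (1 + u) := by ring
    rw [this]
    exact mul_ne_zero a1 a2
  have h6 : 2 / (1 - u ^ 2) = 2 * u / ((2 - u) * (1 + u)) * ((2 - u) / (u * (1 - u))) := by
    rw [show (1 - u ^ 2) = (1 - u) * (1 + u) by ring]
    field_simp
  rw [h6]
  ring

lemma right_neg {φ : ℝ → ℝ} {φ' u : ℝ} (h : HasDerivAt φ φ' u) (h0 : φ u = 0) (hneg : φ' < 0) (hu : u < 1) :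
    ∃ v, u < v ∧ v < 1 ∧ φ v < 0 := by
  have h1 := (hasDerivAt_iff_tendsto_slope.1 h).eventually (gt_mem_nhds hneg)
  have h2 : ∀ᶠ v in 𝓝[>] u, slope φ u v < 0 := h1.filter_mono (nhdsWithin_mono u fun x hx => (ne_of_gt hx))
  have h3 : ∀ᶠ v in 𝓝[>] u, v ∈ Set.Ioo u 1 := Ioo_mem_nhdsGT hu
  obtain ⟨v, hv1, hv2⟩ := (h2.and h3).exists
  refine ⟨v, hv2.1, hv2.2, ?_⟩
  rw [slope_def_field, h0, sub_zero] at hv1
  have h4 : 0 < v - u := sub_pos.2 hv2.1
  by_contra h5
  push Not at h5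
  have : 0 ≤ φ v / (v - u) := div_nonneg h5 h4.le
  linarith

lemma left_neg {φ : ℝ → ℝ} {φ' u : ℝ} (h : HasDerivAt φ φ' u) (h0 : φ u = 0) (hpos : 0 < φ') (hu : 0 < u) :
    ∃ v, 0 < v ∧ v < u ∧ φ v < 0 := by
  have h1 := (hasDerivAt_iff_tendsto_slope.1 h).eventually (lt_mem_nhds hpos)
  have h2 : ∀ᶠ v in 𝓝[<] u, 0 < slope φ u v := h1.filter_mono (nhdsWithin_mono u fun x hx => (ne_of_lt hx))
  have h3 : ∀ᶠ v in 𝓝[<] u, v ∈ Set.Ioo 0 u := Ioo_mem_nhdsLT hu
  obtain ⟨v, hv1, hv2⟩ := (h2.and h3).exists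
  refine ⟨v, hv2.1, hv2.2, ?_⟩
  rw [slope_def_field, h0, sub_zero] at hv1
  have h4 : v - u < 0 := sub_neg.2 hv2.2
  by_contra h5
  push Not at h5
  have : φ v / (v - u) ≤ 0 := div_nonpos_of_nonneg_of_nonpos h5 h4.le
  linarith

end ChernAux

open ChernAux

theorem taskChern (hT : TaskT0) : TaskChern := by
  intro u h0 h1 δ hδ
  have hk : 0 < (2 - u) / (u * (1 - u)) := by
    have h2 : 0 < 1 - u := by linarith
    have h3 : 0 < 2 - u := by linarith
    positivity
  obtain ⟨v, hv1, hv2, hv3⟩ := right_neg (comb_deriv h0 h1 δ) (by simp)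
    (by rw [neg_mul]; exact neg_neg_of_pos (mul_pos hδ hk)) h1
  obtain ⟨w, hw1, hw2, hw3⟩ := left_neg (comb_deriv h0 h1 (-δ)) (by simp)
    (by rw [neg_neg]; exact mul_pos hδ hk) h0
  set A := (Real.log (lam v) - Real.log (lam u)) - (al u + δ) * (Real.log (yy v) - Real.log (yy u)) with hA
  set B := (Real.log (lam w) - Real.log (lam u)) - (al u + -δ) * (Real.log (yy w) - Real.log (yy u)) with hB
  have hv0 : 0 < v := h0.trans hv1
  have hw1' : w < 1 := hw2.trans h1
  -- monotonicity of yy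
  have hyy : ∀ x y : ℝ, 0 < x → x < y → y < 1 → Real.log (yy x) < Real.log (yy y) := by
    intro x y hx hxy hy
    refine Real.log_lt_log (yy_pos hx (hxy.trans hy)) ?_
    unfold yy
    have h2 : 0 < 1 - y := by linarith
    have h3 : 2 * x ^ 2 < 2 * y ^ 2 := by nlinarith
    exact (div_lt_div_of_pos_right h3 (by linarith : 0 < 1 - x)).trans_le
      (div_le_div_of_nonneg_left (by positivity) h2 (by linarith))
  have gen : ∀ x : ℝ, 0 < x → x < 1 → ∀ N M : ℕ, T 0 N M * yy u ^ M ≤ lam u ^ N *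
      Real.exp (N * (Real.log (lam x) - Real.log (lam u)) - M * (Real.log (yy x) - Real.log (yy u))) := by
    intro x hx0 hx1 N M
    have h2 := hT x hx0 hx1 N M
    have h3 : T 0 N M * yy u ^ M = (T 0 N M * yy x ^ M) * Real.exp (M * (Real.log (yy u) - Real.log (yy x))) := by
      rw [mul_assoc, ← pow_change (yy_pos h0 h1) (yy_pos hx0 hx1)]
    rw [h3]
    calc (T 0 N M * yy x ^ M) * Real.exp (M * (Real.log (yy u) - Real.log (yy x)))
        ≤ lam x ^ N * Real.exp (M * (Real.log (yy u) - Real.log (yy x))) :=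
          mul_le_mul_of_nonneg_right h2 (Real.exp_pos _).le
      _ = lam u ^ N * Real.exp (N * (Real.log (lam x) - Real.log (lam u)) - M * (Real.log (yy x) - Real.log (yy u))) := by
          rw [pow_change (lam_pos hx0 hx1) (lam_pos h0 h1) N, mul_assoc, ← Real.exp_add]
          congr 2
          ring
  refine ⟨min (-A) (-B), lt_min (by linarith) (by linarith), fun N M hNM => ?_⟩
  have hN : (0 : ℝ) ≤ N := Nat.cast_nonneg N
  have hlam : 0 ≤ lam u ^ N := (pow_pos (lam_pos h0 h1) N).le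
  rcases le_abs.1 hNM with h2 | h2
  · refine (gen v hv0 hv2 N M).trans (mul_le_mul_of_nonneg_left (Real.exp_le_exp.2 ?_) hlam)
    have h3 : (al u + δ) * N ≤ M := by linarith
    have h4 : 0 < Real.log (yy v) - Real.log (yy u) := sub_pos.2 (hyy u v h0 hv1 hv2)
    have h5 : (al u + δ) * N * (Real.log (yy v) - Real.log (yy u)) ≤ M * (Real.log (yy v) - Real.log (yy u)) :=
      mul_le_mul_of_nonneg_right h3 h4.le
    have h6 : N * (Real.log (lam v) - Real.log (lam u)) - (al u + δ) * N * (Real.log (yy v) - Real.log (yy u)) =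
        N * A := by rw [hA]; ring
    have h7 : (N : ℝ) * A ≤ -min (-A) (-B) * N := by
      have h8 : A ≤ -min (-A) (-B) := by linarith [min_le_left (-A) (-B)]
      nlinarith
    linarith
  · refine (gen w hw1 hw1' N M).trans (mul_le_mul_of_nonneg_left (Real.exp_le_exp.2 ?_) hlam)
    have h3 : (M : ℝ) ≤ (al u + -δ) * N := by linarith
    have h4 : 0 < Real.log (yy u) - Real.log (yy w) := sub_pos.2 (hyy w u hw1 hw2 h1)
    have h5 : M * (Real.log (yy u) - Real.log (yy w)) ≤ (al u + -δ) * N * (Real.log (yy u) - Real.log (yy w)) :=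
      mul_le_mul_of_nonneg_right h3 h4.le
    have h6 : N * (Real.log (lam w) - Real.log (lam u)) + (al u + -δ) * N * (Real.log (yy u) - Real.log (yy w)) =
        N * B := by rw [hB]; ring
    have h7 : (N : ℝ) * B ≤ -min (-A) (-B) * N := by
      have h8 : B ≤ -min (-A) (-B) := by linarith [min_le_right (-A) (-B)]
      nlinarith
    linarith

end Pool.Agent.Q314.PS
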