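import Pool.Agent.Q314.PS.Stmts

set_option autoImplicit false

/-!
MP_667a4a_pr: concatenation of paths.
-/

namespace Pool.Agent.Q314.PS

namespace Conc

theorem cst_nonneg (D : ℤ) (a b : Bool) : 0 ≤ cst D a b := by
  cases a <;> cases b <;> simp only [cst] <;> (try split_ifs) <;> norm_num

theorem wt_nonneg (l : List (Bool × Bool)) : ∀ D : ℤ, 0 ≤ wt D l := by
  induction l with
  | nil => intro D; simp only [wt]; split_ifs <;> norm_num
  | cons p r ih => intro D; simp only [wt]; exact mul_nonneg (cst_nonneg _ _ _) (ih _)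

theorem wt_append (q : List (Bool × Bool)) (p : List (Bool × Bool)) :
    ∀ D : ℤ, wt D p * wt 0 q ≤ wt D (p ++ q) := by
  induction p with
  | nil =>
    intro D
    simp only [wt, List.nil_append]
    split_ifs with h
    · rw [h, one_mul]
    · rw [zero_mul]; exact wt_nonneg _ _
  | cons x r ih =>
    intro D
    simp only [wt, List.cons_append]
    rw [mul_assoc]
    exact mul_le_mul_of_nonneg_left (ih _) (cst_nonneg _ _ _)

theorem wt_diag (l : List Bool) : wt 0 (l.zip l) = 1 := by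
  induction l with
  | nil => simp [wt]
  | cons a r ih =>
    rw [List.zip_cons_cons]
    simp only [wt]
    have h1 : cst 0 a a = 1 := by cases a <;> simp [cst]
    have h2 : (0 : ℤ) + stp a a = 0 := by simp [stp]
    rw [h1, h2, ih, one_mul]

theorem exists_cnt : ∀ (N M : ℕ), M ≤ N → ∃ a : Fin N → Bool, cnt a = M
  | 0, M, h => ⟨fun i => i.elim0, by
      have : M = 0 := by omega
      simp [cnt, this]⟩
  | N + 1, 0, _ => by
      obtain ⟨a, ha⟩ := exists_cnt N 0 (Nat.zero_le _)
      refine ⟨Fin.cons false a, ?_⟩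
      unfold cnt at ha ⊢
      rw [List.ofFn_succ]
      simp only [Fin.cons_zero, Fin.cons_succ, List.count_cons, ha]
      simp
  | N + 1, M + 1, h => by
      obtain ⟨a, ha⟩ := exists_cnt N M (by omega)
      refine ⟨Fin.cons true a, ?_⟩
      unfold cnt at ha ⊢
      rw [List.ofFn_succ]
      simp only [Fin.cons_zero, Fin.cons_succ, List.count_cons, ha]
      simp

/-- the terms of `T` -/
noncomputable def term (ε : ℝ) {N : ℕ} (M : ℕ) (a b : Fin N → Bool) : ℝ :=
  if cnt a = M ∧ cnt b = M then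
    wt 0 ((List.ofFn a).zip (List.ofFn b)) * Real.exp (ε * adj false (List.ofFn a)) else 0

theorem T_eq (ε : ℝ) (N M : ℕ) : T ε N M = ∑ a : Fin N → Bool, ∑ b : Fin N → Bool, term ε M a b := rfl

theorem term_nonneg (ε : ℝ) {N : ℕ} (M : ℕ) (a b : Fin N → Bool) : 0 ≤ term ε M a b := by
  unfold term
  split_ifs
  · exact mul_nonneg (wt_nonneg _ _) (Real.exp_pos _).le
  · exact le_refl _

theorem term_append {N₁ N₂ : ℕ} (M₁ M₂ : ℕ) (a₁ b₁ : Fin N₁ → Bool) (a₂ b₂ : Fin N₂ → Bool) :
    term 0 M₁ a₁ b₁ * term 0 M₂ a₂ b₂ ≤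
      term 0 (M₁ + M₂) (Fin.append a₁ a₂) (Fin.append b₁ b₂) := by
  by_cases h1 : cnt a₁ = M₁ ∧ cnt b₁ = M₁
  · by_cases h2 : cnt a₂ = M₂ ∧ cnt b₂ = M₂
    · have h3 : cnt (Fin.append a₁ a₂) = M₁ + M₂ ∧ cnt (Fin.append b₁ b₂) = M₁ + M₂ := by
        unfold cnt at *
        rw [List.ofFn_fin_append, List.ofFn_fin_append, List.count_append, List.count_append,
          h1.1, h1.2, h2.1, h2.2]
        exact ⟨rfl, rfl⟩
      unfold term
      rw [if_pos h1, if_pos h2, if_pos h3]
      simp only [zero_mul, Real.exp_zero, mul_one]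
      rw [List.ofFn_fin_append, List.ofFn_fin_append, List.zip_append (by simp)]
      exact wt_append _ _ _
    · have : term 0 M₂ a₂ b₂ = 0 := if_neg h2
      rw [this, mul_zero]
      exact term_nonneg _ _ _ _
  · have : term 0 M₁ a₁ b₁ = 0 := if_neg h1
    rw [this, zero_mul]
    exact term_nonneg _ _ _ _

theorem sum_append {N₁ N₂ : ℕ} (f : (Fin (N₁ + N₂) → Bool) → ℝ) :
    ∑ a : Fin (N₁ + N₂) → Bool, f a =
      ∑ a₁ : Fin N₁ → Bool, ∑ a₂ : Fin N₂ → Bool, f (Fin.append a₁ a₂) := by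
  rw [← Fintype.sum_prod_type', ← (Fin.appendEquiv N₁ N₂).sum_comp]
  rfl

end Conc

open Conc in
theorem taskConc : TaskConc := by
  refine ⟨fun N₁ M₁ N₂ M₂ => ?_, fun N M h => ?_, fun ε N M => ?_⟩
  · rw [T_eq, T_eq, T_eq, sum_append]
    simp only [sum_append, Finset.sum_mul_sum]
    refine Finset.sum_le_sum fun a₁ _ => Finset.sum_le_sum fun a₂ _ => ?_
    exact Finset.sum_le_sum fun b₁ _ => Finset.sum_le_sum fun b₂ _ => term_append _ _ _ _ _ _
  · obtain ⟨a, ha⟩ := exists_cnt N M h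
    rw [T_eq]
    have h1 : term 0 M a a = 1 := by
      unfold term
      rw [if_pos ⟨ha, ha⟩, wt_diag]
      simp
    have h2 : term 0 M a a ≤ ∑ b : Fin N → Bool, term 0 M a b :=
      Finset.single_le_sum (f := fun b => term 0 M a b) (fun b _ => term_nonneg _ _ _ _)
        (Finset.mem_univ a)
    have h3 : ∑ b : Fin N → Bool, term 0 M a b ≤
        ∑ a : Fin N → Bool, ∑ b : Fin N → Bool, term 0 M a b :=
      Finset.single_le_sum (f := fun a => ∑ b : Fin N → Bool, term 0 M a b)
        (fun a _ => Finset.sum_nonneg fun b _ => term_nonneg _ _ _ _) (Finset.mem_univ a)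
    linarith
  · rw [T_eq]
    exact Finset.sum_nonneg fun a _ => Finset.sum_nonneg fun b _ => term_nonneg _ _ _ _

end Pool.Agent.Q314.PS
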