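import Mathlib
import Pool.Agent.Q314.PS.Stmts

set_option autoImplicit false

namespace Pool.Agent.Q314.PS

namespace TaskCountAux

noncomputable def W (n : ℕ) (a b : Fin n → Bool) (p q : List Bool) : ℝ :=
  ∑ X : Fin n → Bool, if p ++ sel (List.ofFn a) (List.ofFn X) =
    q ++ sel (List.ofFn b) (List.ofFn X) then 1 else 0

theorem sel_cons_true (a X : List Bool) (x : Bool) : sel (true :: a) (x :: X) = x :: sel a X := by
  simp [sel]

theorem sel_cons_false (a X : List Bool) (x : Bool) : sel (false :: a) (x :: X) = sel a X := by
  simp [sel]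

theorem W_succ (n : ℕ) (a b : Fin (n + 1) → Bool) (p q : List Bool) :
    W (n + 1) a b p q = ∑ x : Bool, W n (fun i => a i.succ) (fun i => b i.succ)
      (p ++ if a 0 then [x] else []) (q ++ if b 0 then [x] else []) := by
  unfold W
  rw [← (Fin.consEquiv (fun _ : Fin (n + 1) => Bool)).sum_comp]
  rw [Fintype.sum_prod_type]
  refine Finset.sum_congr rfl (fun x _ => Finset.sum_congr rfl (fun Y _ => ?_))
  have e : List.ofFn ((Fin.consEquiv (fun _ : Fin (n + 1) => Bool)) (x, Y)) = x :: List.ofFn Y := by
    rw [List.ofFn_succ]
    simp [Fin.consEquiv]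
  rw [e, List.ofFn_succ (f := a), List.ofFn_succ (f := b)]
  cases ha : a 0 <;> cases hb : b 0 <;> simp [sel_cons_true, sel_cons_false]

theorem W_cons (n : ℕ) (a b : Fin n → Bool) (x y : Bool) (p q : List Bool) :
    W n a b (x :: p) (y :: q) = if x = y then W n a b p q else 0 := by
  unfold W
  split_ifs with h
  · subst h
    simp
  · simp [h]

theorem key (n : ℕ) : ∀ (a b : Fin n → Bool),
    (∀ p : List Bool, W n a b p [] = 2 ^ n * wt (p.length : ℤ) ((List.ofFn a).zip (List.ofFn b))) ∧
    (∀ q : List Bool, W n a b [] q = 2 ^ n * wt (-(q.length : ℤ)) ((List.ofFn a).zip (List.ofFn b))) := by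
  induction n with
  | zero =>
    intro a b
    constructor
    · intro p
      cases p with
      | nil => simp [W, wt, sel]
      | cons x p =>
        have : ((p.length : ℤ) + 1) ≠ 0 := by positivity
        simp [W, wt, sel, this]
    · intro p
      cases p with
      | nil => simp [W, wt, sel]
      | cons x p =>
        have : (-1 + -(p.length : ℤ)) ≠ 0 := by
          have : (0 : ℤ) ≤ (p.length : ℤ) := by positivity
          omega
        simp [W, wt, sel, this]
  | succ n ih =>
    intro a b
    obtain ⟨ih1, ih2⟩ := ih (fun i => a i.succ) (fun i => b i.succ)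
    have hz : (List.ofFn a).zip (List.ofFn b) = (a 0, b 0) ::
      (List.ofFn (fun i : Fin n => a i.succ)).zip (List.ofFn (fun i : Fin n => b i.succ)) := by
      rw [List.ofFn_succ (f := a), List.ofFn_succ (f := b)]
      rfl
    rw [hz]
    constructor
    · intro p
      rw [W_succ]
      cases p with
      | nil =>
        cases ha : a 0 <;> cases hb : b 0
        · simp [wt, cst, stp, ih1]; ring
        · simp [wt, cst, stp, ih2]; ring
        · simp [wt, cst, stp, ih1]; ring
        · simp [wt, cst, stp, W_cons, ih1]; ring
      | cons x p =>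
        have h1 : ((p.length : ℤ) + 1) ≠ 0 := by positivity
        have h2 : ¬ ((p.length : ℤ) + 1) ≤ 0 := by
          have : (0 : ℤ) ≤ (p.length : ℤ) := by positivity
          omega
        have h3 : 0 ≤ ((p.length : ℤ) + 1) := by positivity
        cases ha : a 0 <;> cases hb : b 0
        · simp [wt, cst, stp, ih1]; ring
        · cases x <;> simp [wt, cst, stp, W_cons, ih1, h2] <;> ring
        · simp [wt, cst, stp, ih1, h3]; ring
        · cases x <;> simp [wt, cst, stp, W_cons, ih1, h1] <;> ring
    · intro p
      rw [W_succ]
      cases p with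
      | nil =>
        cases ha : a 0 <;> cases hb : b 0
        · simp [wt, cst, stp, ih1]; ring
        · simp [wt, cst, stp, ih2]; ring
        · simp [wt, cst, stp, ih1]; ring
        · simp [wt, cst, stp, W_cons, ih1]; ring
      | cons x p =>
        have h1 : (-1 + -(p.length : ℤ)) ≠ 0 := by
          have : (0 : ℤ) ≤ (p.length : ℤ) := by positivity
          omega
        have h2 : ¬ ((p.length : ℤ) ≤ -1) := by
          have : (0 : ℤ) ≤ (p.length : ℤ) := by positivity
          omega
        cases ha : a 0 <;> cases hb : b 0
        · simp [wt, cst, stp, ih2]; ring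
        · simp [wt, cst, stp, ih2]; ring_nf
        · cases x <;> simp [wt, cst, stp, W_cons, ih2, h2] <;> ring
        · cases x <;> simp [wt, cst, stp, W_cons, ih2, h1] <;> ring

end TaskCountAux

open TaskCountAux in
theorem taskCount : TaskCount := by
  intro N a b _
  have h := (key N a b).1 []
  simp only [List.length_nil, Nat.cast_zero] at h
  rw [← h]
  unfold W
  rw [Nat.card_eq_fintype_card, Fintype.card_subtype]
  simp

end Pool.Agent.Q314.PS
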