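import Mathlib
import Pool.Agent.Q314.PS.Stmts

set_option autoImplicit false

namespace Pool.Agent.Q314.PS

private theorem in_cnt {N : ℕ} (a : Fin N → Bool) :
    cnt a = (Finset.univ.filter (fun i => a i = true)).card := by
  unfold cnt
  induction N with
  | zero => simp
  | succ N ih =>
    rw [List.ofFn_succ, List.count_cons, ih (fun i => a i.succ), Fin.card_filter_univ_succ]
    simp only [Function.comp_def, beq_iff_eq]
    split_ifs <;> rfl

private theorem in_mem {M N : ℕ} (σ : Fin M ↪o Fin N) (i : Fin N) :
    ind σ i = true ↔ i ∈ Set.range σ := by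
  unfold ind
  rw [decide_eq_true_iff]
  rfl

private theorem in_card {M N : ℕ} (σ : Fin M ↪o Fin N) : cnt (ind σ) = M := by
  rw [in_cnt]
  have : (Finset.univ.filter (fun i => ind σ i = true)) = Finset.univ.map σ.toEmbedding := by
    ext i
    rw [Finset.mem_filter, in_mem]
    simp
  rw [this, Finset.card_map, Finset.card_univ, Fintype.card_fin]

theorem taskInd : TaskInd := by
  intro N M f
  rw [← Finset.sum_filter]
  refine Finset.sum_bij (fun σ _ => ind σ) ?_ ?_ ?_ ?_
  · intro σ _
    rw [Finset.mem_filter]
    exact ⟨Finset.mem_univ _, in_card σ⟩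
  · intro σ _ τ _ h
    have hr : Set.range σ = Set.range τ := by
      ext i
      rw [← in_mem, ← in_mem, h]
    have := (StrictMono.range_inj σ.strictMono τ.strictMono).mp hr
    exact DFunLike.coe_injective this
  · intro a ha
    rw [Finset.mem_filter] at ha
    have hc : (Finset.univ.filter (fun i => a i = true)).card = M := by
      rw [← in_cnt]; exact ha.2
    refine ⟨(Finset.univ.filter (fun i => a i = true)).orderEmbOfFin hc, Finset.mem_univ _, ?_⟩
    funext i
    rw [Bool.eq_iff_iff, in_mem, Finset.range_orderEmbOfFin]
    simp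
  · intro σ _
    rfl

end Pool.Agent.Q314.PS
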