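import Pool.Agent.Q314.PS.Stmts

set_option autoImplicit false

namespace Pool.Agent.Q314.PS

theorem taskJensen : TaskJensen := by
  intro ι _ _ z s hz
  have hn : (0 : ℝ) < Fintype.card ι := by exact_mod_cast Fintype.card_pos
  have h := strictConcaveOn_log_Ioi.concaveOn.le_map_sum (t := Finset.univ)
    (w := fun _ : ι => 1 / (Fintype.card ι : ℝ)) (p := fun i => z i * Real.exp (s i))
    (fun _ _ => by positivity) (by
      rw [Finset.sum_const, Finset.card_univ, nsmul_eq_mul, mul_one_div_cancel hn.ne'])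
    (fun i _ => mul_pos (hz i) (Real.exp_pos _))
  simp only [smul_eq_mul] at h
  have h1 : ∀ i, Real.log (z i * Real.exp (s i)) = Real.log (z i) + s i := fun i => by
    rw [Real.log_mul (hz i).ne' (Real.exp_pos _).ne', Real.log_exp]
  simp only [h1, ← Finset.mul_sum, Finset.sum_add_distrib] at h
  have h2 : (∑ i, z i * Real.exp (s i)) / (Fintype.card ι : ℝ) =
      1 / (Fintype.card ι : ℝ) * ∑ i, z i * Real.exp (s i) := by ring
  rw [h2]
  have h3 : 1 / (Fintype.card ι : ℝ) * (∑ i, Real.log (z i) + ∑ i, s i) =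
      (∑ i, Real.log (z i)) / Fintype.card ι + (∑ i, s i) / Fintype.card ι := by ring
  rw [h3] at h
  linarith

end Pool.Agent.Q314.PS
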