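import Mathlib
import Pool.Agent.Q314.PS.Stmts

set_option autoImplicit false

namespace Pool.Agent.Q314.PS

open Filter Topology

namespace TaskLowerAux

theorem ev (κ b : ℝ) (hκ : 0 < κ) (hb : 0 < b) :
    ∃ N : ℕ, ∀ n : ℕ, N ≤ n → ((n : ℝ) + 1) * Real.exp (-κ * n) ≤ b := by
  have h0 : Tendsto (fun n : ℕ => κ * (n : ℝ)) atTop atTop :=
    Tendsto.const_mul_atTop hκ tendsto_natCast_atTop_atTop
  have h1 := (Real.tendsto_pow_mul_exp_neg_atTop_nhds_zero 1).comp h0
  have h2 := (Real.tendsto_pow_mul_exp_neg_atTop_nhds_zero 0).comp h0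
  have h3 : Tendsto (fun n : ℕ => κ⁻¹ * ((κ * (n : ℝ)) ^ 1 * Real.exp (-(κ * n))) +
      (κ * (n : ℝ)) ^ 0 * Real.exp (-(κ * n))) atTop (𝓝 (κ⁻¹ * 0 + 0)) :=
    (h1.const_mul κ⁻¹).add h2
  have h4 : Tendsto (fun n : ℕ => ((n : ℝ) + 1) * Real.exp (-κ * n)) atTop (𝓝 0) := by
    have e : (fun n : ℕ => κ⁻¹ * ((κ * (n : ℝ)) ^ 1 * Real.exp (-(κ * n))) +
      (κ * (n : ℝ)) ^ 0 * Real.exp (-(κ * n))) =
        fun n : ℕ => ((n : ℝ) + 1) * Real.exp (-κ * n) := by
      funext n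
      rw [pow_one, pow_zero, neg_mul]
      field_simp
    rw [e, mul_zero, add_zero] at h3
    exact h3
  exact eventually_atTop.1 (h4.eventually_le_const hb)

end TaskLowerAux

open TaskLowerAux

theorem taskLower (hC : TaskChern) (hR : TaskRet) (hK : TaskConc) : TaskLower := by
  intro u hu0 hu1 η hη
  obtain ⟨hsup, hone, hnn⟩ := hK
  set α := al u with hα
  set y := yy u with hy
  set Λ := lam u with hΛ
  have hy0 : 0 < y := by
    rw [hy]; unfold yy
    have : 0 < 1 - u := by linarith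
    positivity
  have hΛ1 : 1 < Λ := by
    rw [hΛ]; unfold lam
    rw [lt_div_iff₀ (by linarith)]
    linarith
  have hΛ0 : 0 < Λ := by linarith
  have hden : 0 < (2 - u) * (1 + u) := mul_pos (by linarith) (by linarith)
  have hα0 : 0 < α := by
    rw [hα]; unfold al
    exact div_pos (by linarith) hden
  have hα1 : α < 1 := by
    rw [hα]; unfold al
    rw [div_lt_one hden]
    nlinarith
  set m := min y 1 with hm
  have hm0 : 0 < m := lt_min hy0 one_pos
  have hm1 : m ≤ 1 := min_le_right _ _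
  have hmy : m ≤ y := min_le_left _ _
  set q := m / Λ with hq
  have hq0 : 0 < q := div_pos hm0 hΛ0
  have hq1 : q < 1 := by
    rw [hq, div_lt_one hΛ0]
    linarith
  set L := -Real.log q with hL
  have hL0 : 0 < L := by
    rw [hL]
    have := Real.log_neg hq0 hq1
    linarith
  set s := min (1 / 2) (η / (2 * L)) with hs
  have hs0 : 0 < s := lt_min (by norm_num) (by positivity)
  have hs2 : s ≤ 1 / 2 := min_le_left _ _
  have hsL : L * s ≤ η / 2 := by
    have h1 : s ≤ η / (2 * L) := min_le_right _ _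
    calc L * s ≤ L * (η / (2 * L)) := mul_le_mul_of_nonneg_left h1 hL0.le
      _ = η / 2 := by field_simp
  set μ := min α (1 - α) with hμ
  have hμ0 : 0 < μ := lt_min hα0 (by linarith)
  have hμα : μ ≤ α := min_le_left _ _
  have hμα' : μ ≤ 1 - α := min_le_right _ _
  set δ := μ * s / 2 with hδ
  have hδ0 : 0 < δ := by positivity
  obtain ⟨κ, hκ, hch⟩ := hC u hu0 hu1 δ hδ0
  obtain ⟨c, hc, R, hret⟩ := hR u hu0 hu1
  obtain ⟨N1, hN1⟩ := ev κ (c / 2) hκ (by positivity)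
  obtain ⟨N2, hN2⟩ := ev (η / 2) (c / 2 * q) (by positivity) (by positivity)
  refine ⟨δ, hδ0, 2 * (R + N1) + 4 + N2, fun N hN M hM => ?_⟩
  have hNr : (2 * ((R : ℝ) + N1) + 4 + N2) ≤ N := by exact_mod_cast hN
  have hN0 : (0 : ℝ) ≤ N := Nat.cast_nonneg _
  have hR0 : (0 : ℝ) ≤ R := Nat.cast_nonneg _
  have hN10 : (0 : ℝ) ≤ N1 := Nat.cast_nonneg _
  have hN20 : (0 : ℝ) ≤ N2 := Nat.cast_nonneg _
  obtain ⟨k, hk⟩ : ∃ k : ℕ, k = ⌈s * N⌉₊ := ⟨_, rfl⟩
  have hk1 : s * N ≤ k := by rw [hk]; exact Nat.le_ceil _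
  have hk2 : (k : ℝ) < s * N + 1 := by rw [hk]; exact Nat.ceil_lt_add_one (by positivity)
  have hsN : s * N ≤ 1 / 2 * N := mul_le_mul_of_nonneg_right hs2 hN0
  have hkN : k ≤ N := by
    have : (k : ℝ) ≤ N := by linarith
    exact_mod_cast this
  obtain ⟨n, rfl⟩ : ∃ n, N = n + k := ⟨N - k, by omega⟩
  push_cast at *
  have hnr : (R : ℝ) + N1 + 1 ≤ n := by linarith
  have hnR : R ≤ n := by
    have : (R : ℝ) ≤ n := by linarith
    exact_mod_cast this
  have hnN1 : N1 ≤ n := by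
    have : (N1 : ℝ) ≤ n := by linarith
    exact_mod_cast this
  have hn0 : (0 : ℝ) ≤ n := Nat.cast_nonneg _
  have hΛn : 0 < Λ ^ n := pow_pos hΛ0 n
  -- pigeonhole
  obtain ⟨M', hM'1, hM'2⟩ : ∃ M' : ℕ, |(M' : ℝ) - α * n| < δ * n ∧
      c / 2 * Λ ^ n / (n + 1) ≤ T 0 n M' * y ^ M' := by
    by_contra hcon
    push Not at hcon
    have hb : ∀ M' ∈ Finset.range (n + 1), T 0 n M' * y ^ M' <
        c / 2 * Λ ^ n / (n + 1) + Λ ^ n * Real.exp (-κ * n) := by
      intro M' _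
      have p1 : 0 < c / 2 * Λ ^ n / ((n : ℝ) + 1) := by positivity
      have p2 : 0 < Λ ^ n * Real.exp (-κ * n) := by positivity
      rcases lt_or_ge |(M' : ℝ) - α * n| (δ * n) with h | h
      · have := hcon M' h
        linarith
      · have := hch n M' h
        linarith
    have h1 := Finset.sum_lt_sum_of_nonempty (s := Finset.range (n + 1)) (by simp) hb
    rw [Finset.sum_const, Finset.card_range, nsmul_eq_mul] at h1
    have h2 := hret n hnR
    have h3 := hN1 n hnN1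
    push_cast at h1
    have h4 : ((n : ℝ) + 1) * (c / 2 * Λ ^ n / (n + 1) + Λ ^ n * Real.exp (-κ * n)) =
        c / 2 * Λ ^ n + Λ ^ n * (((n : ℝ) + 1) * Real.exp (-κ * n)) := by
      field_simp
    rw [h4] at h1
    have h5 : Λ ^ n * (((n : ℝ) + 1) * Real.exp (-κ * n)) ≤ Λ ^ n * (c / 2) :=
      mul_le_mul_of_nonneg_left h3 hΛn.le
    linarith
  have hMa := abs_le.1 hM
  have hMb := abs_lt.1 hM'1
  have hk0 : (0 : ℝ) ≤ k := Nat.cast_nonneg _
  have h2δ : 2 * δ = μ * s := by rw [hδ]; ring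
  have hαk : μ * s * (n + k) ≤ α * k := by
    calc μ * s * (n + k) = μ * (s * (n + k)) := by ring
      _ ≤ α * k := mul_le_mul hμα hk1 (by positivity) hα0.le
  have hαk' : μ * s * (n + k) ≤ (1 - α) * k := by
    calc μ * s * (n + k) = μ * (s * (n + k)) := by ring
      _ ≤ (1 - α) * k := mul_le_mul hμα' hk1 (by positivity) (by linarith)
  have hδk : 0 ≤ δ * k := by positivity
  have hMM : M' ≤ M := by
    have : (M' : ℝ) ≤ M := by nlinarith [hMa.1, hMb.2]
    exact_mod_cast this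
  obtain ⟨j, rfl⟩ : ∃ j, M = M' + j := ⟨M - M', by omega⟩
  have hjk : j ≤ k := by
    have : (j : ℝ) ≤ k := by
      have := hMa.2
      push_cast at this
      nlinarith [hMb.1]
    exact_mod_cast this
  have hT : T 0 n M' ≤ T 0 (n + k) (M' + j) := by
    calc T 0 n M' = T 0 n M' * 1 := (mul_one _).symm
      _ ≤ T 0 n M' * T 0 k j := mul_le_mul_of_nonneg_left (hone k j hjk) (hnn _ _ _)
      _ ≤ _ := hsup _ _ _ _
  have hyj : m ^ k ≤ y ^ j := by
    calc m ^ k ≤ m ^ j := pow_le_pow_of_le_one hm0.le hm1 hjk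
      _ ≤ y ^ j := pow_le_pow_left₀ hm0.le hmy j
  have hmain : c / 2 * Λ ^ n / (n + 1) * m ^ k ≤ T 0 (n + k) (M' + j) * y ^ (M' + j) := by
    calc c / 2 * Λ ^ n / (n + 1) * m ^ k ≤ (T 0 n M' * y ^ M') * y ^ j :=
          mul_le_mul hM'2 hyj (by positivity) (mul_nonneg (hnn _ _ _) (by positivity))
      _ = T 0 n M' * y ^ (M' + j) := by rw [pow_add]; ring
      _ ≤ _ := mul_le_mul_of_nonneg_right hT (by positivity)
  refine le_trans ?_ hmain
  -- numerics
  have hqk : q ^ k = m ^ k / Λ ^ k := by rw [hq, div_pow]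
  have hqexp : q = Real.exp (-L) := by rw [hL, neg_neg, Real.exp_log hq0]
  have hqk2 : Real.exp (-(η / 2) * (n + k)) * q ≤ q ^ k := by
    have e1 : q ^ k = Real.exp (-(L * k)) := by
      rw [hqexp, ← Real.exp_nat_mul]
      congr 1
      ring
    rw [e1]
    conv_lhs => rw [hqexp]
    rw [← Real.exp_add]
    apply Real.exp_le_exp.2
    have h1 : L * k ≤ L * (s * (n + k) + 1) := mul_le_mul_of_nonneg_left hk2.le hL0.le
    have h2 : L * s * (n + k) ≤ η / 2 * (n + k) := mul_le_mul_of_nonneg_right hsL hN0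
    nlinarith
  have h6 := hN2 (n + k) (by omega)
  push_cast at h6
  have h7 : Real.exp (-η * (n + k)) =
      Real.exp (-(η / 2) * (n + k)) * Real.exp (-(η / 2) * (n + k)) := by
    rw [← Real.exp_add]
    congr 1
    ring
  have h8 : Real.exp (-η * (n + k)) ≤ c / 2 / (n + 1) * q ^ k := by
    have hE : 0 < Real.exp (-(η / 2) * ((n : ℝ) + k)) := Real.exp_pos _
    have h9 : Real.exp (-(η / 2) * ((n : ℝ) + k)) ≤ c / 2 * q / (n + 1) := by
      rw [le_div_iff₀ (by positivity)]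
      calc Real.exp (-(η / 2) * ((n : ℝ) + k)) * (n + 1)
          ≤ Real.exp (-(η / 2) * ((n : ℝ) + k)) * (n + k + 1) :=
            mul_le_mul_of_nonneg_left (by linarith) hE.le
        _ = (n + k + 1) * Real.exp (-(η / 2) * ((n : ℝ) + k)) := mul_comm _ _
        _ ≤ _ := h6
    rw [h7]
    calc Real.exp (-(η / 2) * ((n : ℝ) + k)) * Real.exp (-(η / 2) * ((n : ℝ) + k))
        ≤ Real.exp (-(η / 2) * ((n : ℝ) + k)) * (c / 2 * q / (n + 1)) :=
          mul_le_mul_of_nonneg_left h9 hE.le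
      _ = c / 2 / (n + 1) * (Real.exp (-(η / 2) * ((n : ℝ) + k)) * q) := by ring
      _ ≤ c / 2 / (n + 1) * q ^ k := mul_le_mul_of_nonneg_left hqk2 (by positivity)
  calc Real.exp (-η * (n + k)) * Λ ^ (n + k)
      ≤ (c / 2 / (n + 1) * q ^ k) * Λ ^ (n + k) := mul_le_mul_of_nonneg_right h8 (by positivity)
    _ = c / 2 * Λ ^ n / (n + 1) * m ^ k := by
        rw [hqk, pow_add]
        have : Λ ^ k ≠ 0 := (pow_pos hΛ0 k).ne'
        field_simp

end Pool.Agent.Q314.PS
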