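import Pool.Agent.Q314.PS.Stmts

set_option autoImplicit false

namespace Pool.Agent.Q314.PS

open Filter Topology

namespace MeanAux

noncomputable def SS (N M : ℕ) (l : Bool) : ℝ :=
  ∑ a : Fin N → Bool, if cnt a = M then (adj l (List.ofFn a) : ℝ) else 0

noncomputable def CC (N M : ℕ) : ℝ := ∑ a : Fin N → Bool, if cnt a = M then 1 else 0

lemma sum_succ (N : ℕ) (f : (Fin (N + 1) → Bool) → ℝ) :
    ∑ a : Fin (N + 1) → Bool, f a =
      (∑ a : Fin N → Bool, f (Fin.cons true a)) + ∑ a : Fin N → Bool, f (Fin.cons false a) := by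
  rw [← (Fin.consEquiv (fun _ : Fin (N + 1) => Bool)).sum_comp, Fintype.sum_prod_type,
    Fintype.sum_bool]
  rfl

lemma ofFn_cons {N : ℕ} (b : Bool) (a : Fin N → Bool) :
    List.ofFn (Fin.cons b a : Fin (N + 1) → Bool) = b :: List.ofFn a := by
  rw [List.ofFn_succ]
  simp

lemma cnt_true {N : ℕ} (a : Fin N → Bool) :
    cnt (Fin.cons true a : Fin (N + 1) → Bool) = cnt a + 1 := by
  unfold cnt
  rw [ofFn_cons, List.count_cons_self]

lemma cnt_false {N : ℕ} (a : Fin N → Bool) :
    cnt (Fin.cons false a : Fin (N + 1) → Bool) = cnt a := by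
  unfold cnt
  rw [ofFn_cons, List.count_cons_of_ne (by decide)]

lemma adj_true {N : ℕ} (l : Bool) (a : Fin N → Bool) :
    adj l (List.ofFn (Fin.cons true a : Fin (N + 1) → Bool)) =
      (if l then 1 else 0) + adj true (List.ofFn a) := by
  rw [ofFn_cons, adj, Bool.and_true]

lemma adj_false {N : ℕ} (l : Bool) (a : Fin N → Bool) :
    adj l (List.ofFn (Fin.cons false a : Fin (N + 1) → Bool)) = adj false (List.ofFn a) := by
  rw [ofFn_cons, adj, Bool.and_false]
  simp

lemma CC_zero (M : ℕ) : CC 0 M = if M = 0 then 1 else 0 := by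
  unfold CC
  have h0 : ∀ a : Fin 0 → Bool, cnt a = 0 := by intro a; simp [cnt]
  simp only [h0, eq_comm (a := 0)]
  simp

lemma CC_succ_zero (N : ℕ) : CC (N + 1) 0 = CC N 0 := by
  unfold CC
  rw [sum_succ]
  simp [cnt_true, cnt_false]

lemma CC_succ (N M : ℕ) : CC (N + 1) (M + 1) = CC N M + CC N (M + 1) := by
  unfold CC
  rw [sum_succ]
  simp [cnt_true, cnt_false]

lemma CC_eq (N M : ℕ) : CC N M = (N.choose M : ℝ) := by
  induction N generalizing M with
  | zero =>
    rw [CC_zero]
    cases M with
    | zero => simp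
    | succ M => simp
  | succ N ih =>
    cases M with
    | zero => rw [CC_succ_zero, ih]; simp
    | succ M => rw [CC_succ, ih, ih, Nat.choose_succ_succ]; push_cast; ring

lemma SS_zero (M : ℕ) (l : Bool) : SS 0 M l = 0 := by
  unfold SS
  rw [Fintype.sum_unique]
  simp [adj]

lemma SS_succ_zero (N : ℕ) (l : Bool) : SS (N + 1) 0 l = SS N 0 false := by
  unfold SS
  rw [sum_succ]
  simp only [cnt_true, cnt_false, adj_true, adj_false, Nat.succ_ne_zero, if_false,
    Finset.sum_const_zero, zero_add]

lemma SS_succ (N M : ℕ) (l : Bool) :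
    SS (N + 1) (M + 1) l = (if l then CC N M else 0) + SS N M true + SS N (M + 1) false := by
  unfold SS CC
  rw [sum_succ]
  simp only [cnt_true, cnt_false, adj_true, adj_false, add_left_inj]
  congr 1
  cases l
  · simp
  · simp only [if_true, Nat.cast_add, Nat.cast_one]
    rw [← Finset.sum_add_distrib]
    refine Finset.sum_congr rfl fun a _ => ?_
    split_ifs <;> simp

lemma SS0 (N : ℕ) (l : Bool) : SS N 0 l = 0 := by
  induction N generalizing l with
  | zero => exact SS_zero 0 l
  | succ N ih => rw [SS_succ_zero]; exact ih false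

lemma main (N M : ℕ) : SS (N + 1) (M + 1) false = M * (N.choose M : ℝ) ∧
    SS (N + 1) (M + 1) true = (M + 1) * (N.choose M : ℝ) := by
  induction N generalizing M with
  | zero =>
    rw [SS_succ, SS_succ, SS_zero, SS_zero, CC_eq]
    cases M with
    | zero => simp
    | succ M => simp
  | succ N ih =>
    have h : SS (N + 1) M true + SS (N + 1) (M + 1) false = M * ((N + 1).choose M : ℝ) := by
      cases M with
      | zero => rw [SS0, (ih 0).1]; simp
      | succ K =>
        rw [(ih K).2, (ih (K + 1)).1, Nat.choose_succ_succ]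
        push_cast
        ring
    rw [SS_succ (N + 1), SS_succ (N + 1), CC_eq]
    constructor
    · rw [← h]; simp
    · rw [add_assoc, h]
      simp only [if_true]
      ring

end MeanAux

open MeanAux in
theorem taskMean : TaskMean := by
  intro N M
  change SS N M false * N = _
  cases N with
  | zero =>
    cases M with
    | zero => simp
    | succ M => simp
  | succ N =>
    cases M with
    | zero => rw [SS0]; simp
    | succ M =>
      rw [(MeanAux.main N M).1]
      have h : ((N : ℝ) + 1) * (N.choose M : ℝ) = ((N + 1).choose (M + 1) : ℝ) * (M + 1) := by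
        exact_mod_cast Nat.add_one_mul_choose_eq N M
      push_cast
      linear_combination (M : ℝ) * h

end Pool.Agent.Q314.PS
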