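import Pool.Agent.Q314.PS.Stmts

set_option autoImplicit false

/-! transfer operator bound, by induction on the length of the path -/

namespace Pool.Agent.Q314.PS

namespace TaskPath

theorem cst_nonneg (D : ℤ) (a b : Bool) : 0 ≤ cst D a b := by
  cases a <;> cases b <;> simp only [cst] <;> (try split_ifs) <;> norm_num

theorem wt_nonneg : ∀ (L : List (Bool × Bool)) (D : ℤ), 0 ≤ wt D L
  | [], D => by simp only [wt]; split_ifs <;> norm_num
  | p :: r, D => by
      simp only [wt]
      exact mul_nonneg (cst_nonneg _ _ _) (wt_nonneg r _)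

/-- the sum over all pairs of words of length `N`, from height `D`, previous letter `l` -/
noncomputable def W (ε z : ℝ) (N : ℕ) (D : ℤ) (l : Bool) : ℝ :=
  ∑ a : Fin N → Bool, ∑ b : Fin N → Bool,
    wt D ((List.ofFn a).zip (List.ofFn b)) * Real.exp (ε * adj l (List.ofFn a)) *
      z ^ (cnt a + cnt b)

theorem sum_cons {N : ℕ} (f : (Fin (N + 1) → Bool) → ℝ) :
    ∑ a : Fin (N + 1) → Bool, f a =
      ∑ a0 : Bool, ∑ a : Fin N → Bool, f (Fin.cons a0 a) := by
  rw [← Fintype.sum_prod_type']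
  exact (Equiv.sum_comp (Fin.consEquiv (fun _ => Bool)) f).symm

theorem ofFn_cons' {N : ℕ} (a0 : Bool) (a : Fin N → Bool) :
    List.ofFn (Fin.cons a0 a : Fin (N + 1) → Bool) = a0 :: List.ofFn a := by
  simp [List.ofFn_succ]

theorem cnt_cons {N : ℕ} (a0 : Bool) (a : Fin N → Bool) :
    cnt (Fin.cons a0 a : Fin (N + 1) → Bool) = a0.toNat + cnt a := by
  unfold cnt
  rw [ofFn_cons']
  cases a0 <;> simp [Nat.add_comm]

theorem W_succ (ε z : ℝ) (N : ℕ) (D : ℤ) (l : Bool) :
    W ε z (N + 1) D l = ∑ a : Bool, ∑ b : Bool, cst D a b * z ^ (a.toNat + b.toNat) *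
      Real.exp (ε * (if l && a then 1 else 0)) * W ε z N (D + stp a b) a := by
  unfold W
  rw [sum_cons]
  refine Finset.sum_congr rfl fun a0 _ => ?_
  have h1 : ∀ a : Fin N → Bool,
      ∑ b : Fin (N + 1) → Bool,
        wt D ((List.ofFn (Fin.cons a0 a : Fin (N + 1) → Bool)).zip (List.ofFn b)) *
          Real.exp (ε * adj l (List.ofFn (Fin.cons a0 a : Fin (N + 1) → Bool))) *
          z ^ (cnt (Fin.cons a0 a : Fin (N + 1) → Bool) + cnt b) =
      ∑ b0 : Bool, ∑ b : Fin N → Bool,
        cst D a0 b0 * z ^ (a0.toNat + b0.toNat) *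
          Real.exp (ε * (if l && a0 then 1 else 0)) *
          (wt (D + stp a0 b0) ((List.ofFn a).zip (List.ofFn b)) *
            Real.exp (ε * adj a0 (List.ofFn a)) * z ^ (cnt a + cnt b)) := by
    intro a
    rw [sum_cons]
    refine Finset.sum_congr rfl fun b0 _ => Finset.sum_congr rfl fun b _ => ?_
    rw [ofFn_cons', ofFn_cons', cnt_cons, cnt_cons]
    simp only [List.zip_cons_cons, wt, adj]
    have e1 : Real.exp (ε * (((if (l && a0) = true then 1 else 0) + adj a0 (List.ofFn a) : ℕ) : ℝ)) =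
        Real.exp (ε * (if (l && a0) = true then 1 else 0)) *
          Real.exp (ε * adj a0 (List.ofFn a)) := by
      rw [← Real.exp_add]
      congr 1
      push_cast
      ring
    rw [e1]
    have e2 : z ^ (a0.toNat + cnt a + (b0.toNat + cnt b)) =
        z ^ (a0.toNat + b0.toNat) * z ^ (cnt a + cnt b) := by
      rw [← pow_add]
      congr 1
      omega
    rw [e2]
    ring
  simp_rw [h1]
  rw [Finset.sum_comm]
  refine Finset.sum_congr rfl fun b0 _ => ?_
  rw [Finset.mul_sum]
  refine Finset.sum_congr rfl fun a _ => ?_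
  rw [Finset.mul_sum]

theorem W_le (ε z Λ h0 : ℝ) (H : ℤ → Bool → ℝ) (hz : 0 < z) (hΛ : 0 ≤ Λ) (_hh : 0 < h0)
    (hH : ∀ D l, 0 < H D l) (hH0 : ∀ l, h0 ≤ H 0 l)
    (hs : ∀ D l, ∑ a : Bool, ∑ b : Bool, cst D a b * z ^ (a.toNat + b.toNat) *
      Real.exp (ε * (if l && a then 1 else 0)) * H (D + stp a b) a ≤ Λ * H D l) :
    ∀ N D l, W ε z N D l * h0 ≤ Λ ^ N * H D l := by
  intro N
  induction N with
  | zero =>
    intro D l
    have e : W ε z 0 D l = if D = 0 then 1 else 0 := by
      unfold W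
      simp [wt, adj, cnt]
    rw [e, pow_zero, one_mul]
    split_ifs with h
    · rw [one_mul, h]
      exact hH0 l
    · rw [zero_mul]
      exact (hH D l).le
  | succ N ih =>
    intro D l
    rw [W_succ]
    have h2 : (∑ a : Bool, ∑ b : Bool, cst D a b * z ^ (a.toNat + b.toNat) *
        Real.exp (ε * (if l && a then 1 else 0)) * W ε z N (D + stp a b) a) * h0 ≤
        Λ ^ N * ∑ a : Bool, ∑ b : Bool, cst D a b * z ^ (a.toNat + b.toNat) *
          Real.exp (ε * (if l && a then 1 else 0)) * H (D + stp a b) a := by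
      rw [Finset.sum_mul, Finset.mul_sum]
      refine Finset.sum_le_sum fun a _ => ?_
      rw [Finset.sum_mul, Finset.mul_sum]
      refine Finset.sum_le_sum fun b _ => ?_
      have hc : 0 ≤ cst D a b * z ^ (a.toNat + b.toNat) *
          Real.exp (ε * (if l && a then 1 else 0)) :=
        mul_nonneg (mul_nonneg (cst_nonneg _ _ _) (pow_pos hz _).le) (Real.exp_pos _).le
      have := mul_le_mul_of_nonneg_left (ih (D + stp a b) a) hc
      calc _ = cst D a b * z ^ (a.toNat + b.toNat) *
          Real.exp (ε * (if l && a then 1 else 0)) * (W ε z N (D + stp a b) a * h0) := by ring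
        _ ≤ _ := this
        _ = _ := by ring
    refine h2.trans ?_
    calc _ ≤ Λ ^ N * (Λ * H D l) := mul_le_mul_of_nonneg_left (hs D l) (pow_nonneg hΛ _)
      _ = _ := by ring

end TaskPath

open TaskPath in
theorem taskPath : TaskPath := by
  intro ε z Λ h0 H hz hΛ hh hH hH0 hs N M
  have h1 := W_le ε z Λ h0 H hz hΛ hh hH hH0 hs N 0 false
  have h2 : T ε N M * z ^ (2 * M) ≤ W ε z N 0 false := by
    unfold T W
    rw [Finset.sum_mul]
    refine Finset.sum_le_sum fun a _ => ?_
    rw [Finset.sum_mul]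
    refine Finset.sum_le_sum fun b _ => ?_
    have h0 : 0 ≤ wt 0 ((List.ofFn a).zip (List.ofFn b)) *
        Real.exp (ε * adj false (List.ofFn a)) * z ^ (cnt a + cnt b) :=
      mul_nonneg (mul_nonneg (wt_nonneg _ _) (Real.exp_pos _).le) (pow_pos hz _).le
    split_ifs with h
    · rw [h.1, h.2, two_mul]
    · rw [zero_mul]
      exact h0
  refine h2.trans ?_
  rw [← mul_div_assoc, le_div_iff₀ hh]
  exact h1

end Pool.Agent.Q314.PS
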