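import Pool.Agent.Q314.PS.Stmts

set_option autoImplicit false

namespace Pool.Agent.Q314.PS

theorem taskPlant (hI : TaskInd) (hS : TaskSel) (hC : TaskCount) : TaskPlant := by
  classical
  intro N M ε
  obtain ⟨c, hc⟩ : ∃ c : (Fin N → Bool) → (Fin N → Bool) → ℝ, ∀ a b, c a b =
      (Nat.card {X : Fin N → Bool //
        sel (List.ofFn a) (List.ofFn X) = sel (List.ofFn b) (List.ofFn X)} : ℝ) :=
    ⟨_, fun _ _ => rfl⟩
  have h1 : ∀ (X : Fin N → Bool) (σ : Fin M ↪o Fin N), (Z X (fun j => X (σ j)) : ℝ) =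
      ∑ τ : Fin M ↪o Fin N, if sel (List.ofFn (ind σ)) (List.ofFn X) =
        sel (List.ofFn (ind τ)) (List.ofFn X) then (1 : ℝ) else 0 := by
    intro X σ
    unfold Z
    rw [Nat.card_eq_fintype_card, Fintype.card_subtype, Finset.sum_boole]
    congr 2
    ext τ
    simp only [Finset.mem_filter, Finset.mem_univ, true_and]
    rw [hS, hS, List.ofFn_injective.eq_iff, funext_iff]
    exact ⟨fun h j => (h j).symm, fun h j => (h j).symm⟩
  have h2 : ∑ X : Fin N → Bool, ∑ σ : Fin M ↪o Fin N,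
      (Z X (fun j => X (σ j)) : ℝ) * Real.exp (ε * adj false (List.ofFn (ind σ))) =
      ∑ σ : Fin M ↪o Fin N, Real.exp (ε * adj false (List.ofFn (ind σ))) *
        ∑ τ : Fin M ↪o Fin N, c (ind σ) (ind τ) := by
    simp_rw [h1, Finset.sum_mul]
    rw [Finset.sum_comm]
    apply Finset.sum_congr rfl
    intro σ _
    rw [Finset.sum_comm, Finset.mul_sum]
    apply Finset.sum_congr rfl
    intro τ _
    rw [← Finset.sum_mul, mul_comm]
    congr 1
    rw [hc, Finset.sum_boole, Nat.card_eq_fintype_card, Fintype.card_subtype]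
  rw [h2, hI N M (fun a => Real.exp (ε * adj false (List.ofFn a)) *
    ∑ τ : Fin M ↪o Fin N, c a (ind τ))]
  unfold T
  rw [Finset.mul_sum]
  apply Finset.sum_congr rfl
  intro a _
  rw [hI N M (fun b => c a b), Finset.mul_sum, Finset.mul_sum]
  by_cases ha : cnt a = M
  · rw [if_pos ha]
    apply Finset.sum_congr rfl
    intro b _
    by_cases hb : cnt b = M
    · rw [if_pos hb, if_pos ⟨ha, hb⟩, hc, hC N a b (ha.trans hb.symm)]
      ring
    · rw [if_neg hb, if_neg (fun h => hb h.2), mul_zero, mul_zero]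
  · rw [if_neg ha]
    symm
    apply Finset.sum_eq_zero
    intro b _
    rw [if_neg (fun h => ha h.1), mul_zero]

end Pool.Agent.Q314.PS
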