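import Pool.Agent.Q314.PS.Stmts

set_option autoImplicit false

/-! `TaskRet`: the return weight of the two-replica chain is at least `c λ ^ N`: the transfer
operator is symmetric for the weights `2 ^ |D|`, has the positive eigenvector `r ^ |D|`, and
Cauchy-Schwarz gives the bound for even `N`. -/

namespace Pool.Agent.Q314.PS

namespace TaskRet

/-- the transfer operator -/
noncomputable def op (s : ℝ) (f : ℤ → ℝ) (D : ℤ) : ℝ :=
  ∑ a : Bool, ∑ b : Bool, cst D a b * s ^ (a.toNat + b.toNat) * f (D + stp a b)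

noncomputable def up (D : ℤ) : ℝ := if 0 ≤ D then 1 else 1 / 2
noncomputable def dn (D : ℤ) : ℝ := if D ≤ 0 then 1 else 1 / 2
noncomputable def ct (D : ℤ) : ℝ := if D = 0 then 1 else 1 / 2
noncomputable def w (D : ℤ) : ℝ := 2 ^ D.natAbs

lemma op_eq (s : ℝ) (f : ℤ → ℝ) (D : ℤ) :
    op s f D = (1 + ct D * s ^ 2) * f D + up D * s * f (D + 1) + dn D * s * f (D - 1) := by
  unfold op
  simp only [Fintype.sum_bool, cst, stp, up, dn, ct, Bool.toNat_true, Bool.toNat_false]
  norm_num
  have : D + -1 = D - 1 := by ring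
  rw [this]
  split_ifs <;> first | ring | omega

/-- sums over pairs of 0-1-vectors -/
noncomputable def G (s : ℝ) (N : ℕ) (D : ℤ) : ℝ :=
  ∑ a : Fin N → Bool, ∑ b : Fin N → Bool,
    wt D ((List.ofFn a).zip (List.ofFn b)) * s ^ (cnt a + cnt b)

lemma sum_cons (N : ℕ) (g : List Bool → ℝ) : ∑ a : Fin (N + 1) → Bool, g (List.ofFn a) =
    ∑ x : Bool, ∑ a : Fin N → Bool, g (x :: List.ofFn a) := by
  rw [← Fintype.sum_prod_type' (f := fun (x : Bool) (a : Fin N → Bool) => g (x :: List.ofFn a))]
  exact (Fintype.sum_equiv (Fin.consEquiv (fun _ : Fin (N + 1) => Bool)) _ _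
    (fun p => by simp [Fin.consEquiv, List.ofFn_succ])).symm

lemma G_zero (s : ℝ) (D : ℤ) : G s 0 D = if D = 0 then 1 else 0 := by
  simp [G, wt, cnt]

lemma G_succ (s : ℝ) (N : ℕ) (D : ℤ) : G s (N + 1) D = op s (G s N) D := by
  unfold G cnt
  rw [sum_cons N (fun l => ∑ b : Fin (N + 1) → Bool,
    wt D (l.zip (List.ofFn b)) * s ^ (l.count true + (List.ofFn b).count true))]
  unfold op
  apply Finset.sum_congr rfl
  intro x _
  have : ∀ a : Fin N → Bool, ∑ b : Fin (N + 1) → Bool,
      wt D ((x :: List.ofFn a).zip (List.ofFn b)) *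
        s ^ ((x :: List.ofFn a).count true + (List.ofFn b).count true) =
      ∑ y : Bool, ∑ b : Fin N → Bool, wt D ((x :: List.ofFn a).zip (y :: List.ofFn b)) *
        s ^ ((x :: List.ofFn a).count true + (y :: List.ofFn b).count true) := fun a =>
    sum_cons N (fun l => wt D ((x :: List.ofFn a).zip l) *
        s ^ ((x :: List.ofFn a).count true + l.count true))
  rw [Finset.sum_congr rfl (fun a _ => this a), Finset.sum_comm]
  apply Finset.sum_congr rfl
  intro y _
  simp only [Finset.mul_sum]
  apply Finset.sum_congr rfl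
  intro a _
  apply Finset.sum_congr rfl
  intro b _
  rw [List.zip_cons_cons]
  simp only [wt]
  cases x <;> cases y <;> simp [List.count_cons] <;> ring

lemma G_nonneg {s : ℝ} (hs : 0 ≤ s) (N : ℕ) (D : ℤ) : 0 ≤ G s N D := by
  induction N generalizing D with
  | zero => rw [G_zero]; split_ifs <;> norm_num
  | succ N ih =>
    rw [G_succ, op_eq]
    have h1 : 0 ≤ ct D := by unfold ct; split_ifs <;> norm_num
    have h2 : 0 ≤ up D := by unfold up; split_ifs <;> norm_num
    have h3 : 0 ≤ dn D := by unfold dn; split_ifs <;> norm_num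
    have := ih D
    have := ih (D + 1)
    have := ih (D - 1)
    positivity

lemma G_supp (s : ℝ) (N : ℕ) (D : ℤ) (h : D < -N ∨ (N : ℤ) < D) : G s N D = 0 := by
  induction N generalizing D with
  | zero =>
    rw [G_zero, if_neg]
    rintro rfl
    simp at h
  | succ N ih =>
    rw [G_succ, op_eq, ih D (by push_cast at h; omega), ih (D + 1) (by push_cast at h; omega),
      ih (D - 1) (by push_cast at h; omega)]
    ring

lemma G_fin (s : ℝ) (N : ℕ) : (Function.support (G s N)).Finite := by
  apply (Set.finite_Icc (-(N : ℤ)) N).subset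
  intro D hD
  by_contra hne
  apply hD
  apply G_supp
  rw [Set.mem_Icc, not_and_or] at hne
  rcases hne with h | h
  · left; omega
  · right; omega

lemma balance (D : ℤ) : w (D + 1) * dn (D + 1) = w D * up D := by
  unfold w dn up
  rcases le_or_gt 0 D with h | h
  · rw [if_neg (by omega), if_pos h]
    have : (D + 1).natAbs = D.natAbs + 1 := by omega
    rw [this, pow_succ]
    ring
  · rw [if_pos (by omega), if_neg (by omega)]
    have : D.natAbs = (D + 1).natAbs + 1 := by omega
    rw [this, pow_succ]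
    ring

lemma summable_fin {f : ℤ → ℝ} (hf : (Function.support f).Finite) (g : ℤ → ℝ)
    (hg : ∀ D, f D = 0 → g D = 0) : Summable g := by
  apply summable_of_ne_finset_zero (s := hf.toFinset)
  intro D hD
  apply hg
  by_contra hne
  exact hD (hf.mem_toFinset.2 hne)

lemma shift_fin {f : ℤ → ℝ} (hf : (Function.support f).Finite) (k : ℤ) :
    (Function.support fun D => f (D + k)).Finite :=
  hf.preimage ((add_left_injective k).injOn)

lemma symm_op (s : ℝ) {f : ℤ → ℝ} (hf : (Function.support f).Finite) (g : ℤ → ℝ) :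
    ∑' D, w D * op s f D * g D = ∑' D, w D * f D * op s g D := by
  obtain ⟨P, hP⟩ : ∃ P : ℤ → ℝ, ∀ D, P D = w D * up D * s * f (D + 1) * g D :=
    ⟨fun D => w D * up D * s * f (D + 1) * g D, fun _ => rfl⟩
  obtain ⟨Q, hQ⟩ : ∃ Q : ℤ → ℝ, ∀ D, Q D = w D * dn D * s * f (D - 1) * g D :=
    ⟨fun D => w D * dn D * s * f (D - 1) * g D, fun _ => rfl⟩
  obtain ⟨R, hR⟩ : ∃ R : ℤ → ℝ, ∀ D, R D = w D * (1 + ct D * s ^ 2) * f D * g D :=
    ⟨fun D => w D * (1 + ct D * s ^ 2) * f D * g D, fun _ => rfl⟩
  have sP : Summable P := summable_fin (shift_fin hf 1) _ (fun D h => by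
    have h' : f (D + 1) = 0 := h
    rw [hP, h']; ring)
  have sQ : Summable Q := summable_fin (shift_fin hf (-1)) _ (fun D h => by
    have h' : f (D - 1) = 0 := h
    rw [hQ, h']; ring)
  have sR : Summable R := summable_fin hf _ (fun D h => by
    rw [hR, h]; ring)
  have sP' : Summable fun D => P (D + (-1)) := (Equiv.addRight (-1 : ℤ)).summable_iff.2 sP
  have sQ' : Summable fun D => Q (D + 1) := (Equiv.addRight (1 : ℤ)).summable_iff.2 sQ
  have t1 : ∑' D, P (D + (-1)) = ∑' D, P D := (Equiv.addRight (-1 : ℤ)).tsum_eq P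
  have t2 : ∑' D, Q (D + 1) = ∑' D, Q D := (Equiv.addRight (1 : ℤ)).tsum_eq Q
  have e1 : ∀ D, w D * op s f D * g D = R D + (P D + Q D) := by
    intro D
    rw [op_eq, hP, hQ, hR]
    ring
  have e2 : ∀ D, w D * f D * op s g D = R D + (P (D + (-1)) + Q (D + 1)) := by
    intro D
    rw [op_eq, hP, hQ, hR]
    have b1 := balance D
    have b2 := balance (D - 1)
    rw [sub_add_cancel] at b2
    have a1 : D + -1 = D - 1 := by ring
    have a2 : D - 1 + 1 = D := by ring
    have a3 : D + 1 - 1 = D := by ring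
    rw [a1, a2, a3, b1, ← b2]
    ring
  have u1 : ∑' D, w D * op s f D * g D = ∑' D, (R D + (P D + Q D)) := tsum_congr e1
  have u2 : ∑' D, w D * f D * op s g D = ∑' D, (R D + (P (D + (-1)) + Q (D + 1))) :=
    tsum_congr e2
  have v1 : ∑' D, (R D + (P D + Q D)) = ∑' D, R D + (∑' D, P D + ∑' D, Q D) := by
    rw [sR.tsum_add (sP.add sQ), sP.tsum_add sQ]
  have v2 : ∑' D, (R D + (P (D + (-1)) + Q (D + 1))) =
      ∑' D, R D + (∑' D, P (D + (-1)) + ∑' D, Q (D + 1)) := by
    rw [sR.tsum_add (sP'.add sQ'), sP'.tsum_add sQ']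
  rw [u1, u2, v1, v2, t1, t2]

lemma G_inner (s : ℝ) (N M : ℕ) : ∑' D, w D * G s N D * G s M D = G s (N + M) 0 := by
  induction N generalizing M with
  | zero =>
    rw [tsum_eq_single 0]
    · rw [G_zero, if_pos rfl, zero_add]
      simp [w]
    · intro D hD
      rw [G_zero, if_neg hD]
      ring
  | succ N ih =>
    have e : ∑' D, w D * G s (N + 1) D * G s M D = ∑' D, w D * op s (G s N) D * G s M D := by
      simp only [G_succ]
    have e' : ∑' D, w D * G s N D * op s (G s M) D = ∑' D, w D * G s N D * G s (M + 1) D := by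
      simp only [G_succ]
    rw [e, symm_op s (G_fin s N), e', ih]
    congr 1
    ring

lemma G_eig {s l : ℝ} {h : ℤ → ℝ} (h0 : h 0 = 1) (hh : ∀ D, op s h D = l * h D) (N : ℕ) :
    ∑' D, w D * G s N D * h D = l ^ N := by
  induction N with
  | zero =>
    rw [tsum_eq_single 0]
    · rw [G_zero, if_pos rfl, h0]
      simp [w]
    · intro D hD
      rw [G_zero, if_neg hD]
      ring
  | succ N ih =>
    have e : ∑' D, w D * G s (N + 1) D * h D = ∑' D, w D * op s (G s N) D * h D := by
      simp only [G_succ]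
    rw [e, symm_op s (G_fin s N)]
    simp only [hh]
    have : ∀ D, w D * G s N D * (l * h D) = l * (w D * G s N D * h D) := fun D => by ring
    simp only [this]
    rw [tsum_mul_left, ih, pow_succ]
    ring

lemma eigen {u r : ℝ} (hu : 0 < u) (hu1 : u < 1) (hr : r ^ 2 = (1 - u) / 2) (D : ℤ) :
    op (2 * r * u / (1 - u)) (fun D => r ^ D.natAbs) D = lam u * r ^ D.natAbs := by
  have h1 : (1 - u) ≠ 0 := by linarith
  rw [op_eq]
  unfold lam up dn ct
  rcases lt_trichotomy D 0 with h | h | h
  · obtain ⟨n, hn⟩ : ∃ n : ℕ, D = -((n : ℤ) + 1) := ⟨(-D - 1).toNat, by omega⟩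
    have a1 : D.natAbs = n + 1 := by omega
    have a2 : (D + 1).natAbs = n := by omega
    have a3 : (D - 1).natAbs = n + 2 := by omega
    rw [if_neg (by omega), if_neg (by omega), if_pos (by omega)]
    simp only [a1, a2, a3]
    have e : r ^ (n + 2) = r ^ n * ((1 - u) / 2) := by rw [pow_add, hr]
    have e2 : (2 * r * u / (1 - u)) ^ 2 = 2 * u ^ 2 / (1 - u) := by
      rw [div_pow]
      have : (2 * r * u) ^ 2 = 4 * r ^ 2 * u ^ 2 := by ring
      rw [this, hr]
      field_simp
      ring
    rw [e, e2, pow_succ]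
    field_simp
    ring
  · subst h
    simp only [le_refl, if_true, Int.natAbs_zero, pow_zero, zero_add, zero_sub, Int.natAbs_neg,
      Int.natAbs_one, pow_one]
    have e2 : (2 * r * u / (1 - u)) ^ 2 = 2 * u ^ 2 / (1 - u) := by
      rw [div_pow]
      have : (2 * r * u) ^ 2 = 4 * r ^ 2 * u ^ 2 := by ring
      rw [this, hr]
      field_simp
      ring
    have e3 : 2 * r * u / (1 - u) * r = u := by
      have : 2 * r * u / (1 - u) * r = 2 * r ^ 2 * u / (1 - u) := by ring
      rw [this, hr]
      field_simp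
    rw [e2]
    have e4 : (1 : ℝ) * (2 * r * u / (1 - u)) * r = u := by rw [one_mul, e3]
    rw [e4]
    field_simp
    ring
  · obtain ⟨n, hn⟩ : ∃ n : ℕ, D = (n : ℤ) + 1 := ⟨(D - 1).toNat, by omega⟩
    have a1 : D.natAbs = n + 1 := by omega
    have a2 : (D + 1).natAbs = n + 2 := by omega
    have a3 : (D - 1).natAbs = n := by omega
    rw [if_neg (by omega), if_pos (by omega), if_neg (by omega)]
    simp only [a1, a2, a3]
    have e : r ^ (n + 2) = r ^ n * ((1 - u) / 2) := by rw [pow_add, hr]
    have e2 : (2 * r * u / (1 - u)) ^ 2 = 2 * u ^ 2 / (1 - u) := by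
      rw [div_pow]
      have : (2 * r * u) ^ 2 = 4 * r ^ 2 * u ^ 2 := by ring
      rw [this, hr]
      field_simp
      ring
    rw [e, e2, pow_succ]
    field_simp
    ring

lemma wt_count (D : ℤ) : ∀ (a b : List Bool), a.length = b.length → wt D (a.zip b) ≠ 0 →
    D + (a.count true : ℤ) - (b.count true : ℤ) = 0 := by
  intro a
  induction a generalizing D with
  | nil =>
    intro b hb h
    have : b = [] := by
      cases b with
      | nil => rfl
      | cons _ _ => simp at hb
    subst this
    simp [wt] at h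
    simp [h]
  | cons x a ih =>
    intro b hb h
    cases b with
    | nil => simp at hb
    | cons y b =>
      rw [List.zip_cons_cons] at h
      simp only [wt] at h
      have h2 := right_ne_zero_of_mul h
      have := ih _ b (by simpa using hb) h2
      unfold stp at this
      cases x <;> cases y <;> simp [List.count_cons] at this ⊢ <;> omega

lemma cnt_le {N : ℕ} (a : Fin N → Bool) : cnt a ≤ N := by
  unfold cnt
  have := List.count_le_length (a := true) (l := List.ofFn a)
  simpa using this

lemma sum_T {u : ℝ} (hu : 0 < u) (hu1 : u < 1) (N : ℕ) :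
    ∑ M ∈ Finset.range (N + 1), T 0 N M * yy u ^ M = G (Real.sqrt (yy u)) N 0 := by
  have hy : 0 ≤ yy u := by
    unfold yy
    have : 0 < 1 - u := by linarith
    positivity
  unfold T G
  simp only [Finset.sum_mul]
  rw [Finset.sum_comm]
  apply Finset.sum_congr rfl
  intro a _
  rw [Finset.sum_comm]
  apply Finset.sum_congr rfl
  intro b _
  by_cases h : cnt a = cnt b
  · rw [Finset.sum_eq_single (cnt a)]
    · rw [if_pos ⟨rfl, h.symm⟩, zero_mul, Real.exp_zero, mul_one, ← h, ← two_mul, pow_mul,
        Real.sq_sqrt hy]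
    · intro M _ hM
      rw [if_neg (fun h' => hM h'.1.symm), zero_mul]
    · intro hM
      exact absurd (Finset.mem_range.2 (Nat.lt_succ_of_le (cnt_le a))) hM
  · have hw : wt 0 ((List.ofFn a).zip (List.ofFn b)) = 0 := by
      by_contra hne
      have := wt_count 0 _ _ (by simp) hne
      apply h
      unfold cnt
      omega
    rw [hw]
    simp

end TaskRet

open TaskRet in
theorem taskRet : TaskRet := by
  intro u hu hu1
  have h1 : 0 < 1 - u := by linarith
  set r : ℝ := Real.sqrt ((1 - u) / 2) with hr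
  have hr2 : r ^ 2 = (1 - u) / 2 := Real.sq_sqrt (by positivity)
  have hr0 : 0 < r := Real.sqrt_pos.2 (by positivity)
  have hs : Real.sqrt (yy u) = 2 * r * u / (1 - u) := by
    rw [Real.sqrt_eq_iff_mul_self_eq_of_pos (by positivity)]
    unfold yy
    have : 2 * r * u / (1 - u) * (2 * r * u / (1 - u)) = 4 * r ^ 2 * u ^ 2 / (1 - u) ^ 2 := by
      field_simp
      norm_num
    rw [this, hr2]
    field_simp
    ring
  set s : ℝ := Real.sqrt (yy u) with hsdef
  have hs0 : 0 ≤ s := Real.sqrt_nonneg _
  set g : ℤ → ℝ := fun D => (1 - u) ^ D.natAbs with hg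
  have hgs : Summable g := by
    have hgeo : Summable fun n : ℕ => (1 - u) ^ n :=
      summable_geometric_of_lt_one h1.le (by linarith)
    apply Summable.of_nat_of_neg
    · simpa [hg] using hgeo
    · simpa [hg] using hgeo
  set C : ℝ := ∑' D, g D with hC
  have hC1 : 1 ≤ C := by
    have := hgs.le_tsum 0 (fun D _ => by simp only [hg]; positivity)
    simpa [hg] using this
  have hlam : 1 < lam u := by
    unfold lam
    rw [lt_div_iff₀ h1]
    linarith
  have hE : ∀ D, op s (fun D => r ^ D.natAbs) D = lam u * r ^ D.natAbs := by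
    intro D
    rw [hs]
    exact eigen hu hu1 hr2 D
  have heven : ∀ N : ℕ, lam u ^ (2 * N) ≤ G s (2 * N) 0 * C := by
    intro N
    have e1 := G_eig (s := s) (l := lam u) (h := fun D => r ^ D.natAbs) (by simp) hE N
    have e2 := G_inner s N N
    set S := (G_fin s N).toFinset with hS
    have z : ∀ D, D ∉ S → G s N D = 0 := by
      intro D hD
      by_contra hne
      exact hD ((G_fin s N).mem_toFinset.2 hne)
    rw [tsum_eq_sum (s := S) (fun D hD => by rw [z D hD]; ring)] at e1 e2
    have cs := Finset.sum_sq_le_sum_mul_sum_of_sq_eq_mul S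
      (r := fun D => w D * G s N D * r ^ D.natAbs) (f := fun D => w D * G s N D * G s N D)
      (g := g) (fun D _ => by
        have := G_nonneg hs0 N D
        have : 0 < w D := by unfold w; positivity
        positivity) (fun D _ => by simp only [hg]; positivity) (fun D _ => by
        simp only [hg, w]
        have : (1 - u) ^ D.natAbs = 2 ^ D.natAbs * (r ^ D.natAbs) ^ 2 := by
          rw [← pow_mul, mul_comm D.natAbs 2, pow_mul, hr2, ← mul_pow]
          congr 1
          ring
        rw [this]
        ring)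
    rw [e1, e2] at cs
    have hle : ∑ D ∈ S, g D ≤ C := hgs.sum_le_tsum S (fun D _ => by simp only [hg]; positivity)
    have hG := G_nonneg hs0 (N + N) 0
    have e3 : 2 * N = N + N := two_mul N
    rw [e3, pow_add, ← sq]
    exact cs.trans (mul_le_mul_of_nonneg_left hle hG)
  have hstep : ∀ N : ℕ, G s N 0 ≤ G s (N + 1) 0 := by
    intro N
    rw [G_succ, op_eq]
    have a1 := G_nonneg hs0 N 0
    have a2 := G_nonneg hs0 N (0 + 1)
    have a3 := G_nonneg hs0 N (0 - 1)
    simp only [ct, up, dn, le_refl, if_true]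
    have : 0 ≤ s ^ 2 * G s N 0 := by positivity
    have : 0 ≤ s * G s N (0 + 1) := by positivity
    have : 0 ≤ s * G s N (0 - 1) := by positivity
    nlinarith
  have hlam0 : 0 < lam u := by linarith
  have hC0 : 0 < C := by linarith
  refine ⟨1 / (lam u * C), by positivity, 0, ?_⟩
  intro N _
  rw [sum_T hu hu1, ← hsdef]
  rw [div_mul_eq_mul_div, one_mul, div_le_iff₀ (by positivity)]
  rcases Nat.even_or_odd' N with ⟨k, hk | hk⟩
  · have := heven k
    rw [← hk] at this
    have hG := G_nonneg hs0 N 0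
    have h2 : 0 ≤ G s N 0 * C := by positivity
    nlinarith
  · have := heven k
    have h3 := hstep (2 * k)
    rw [← hk] at h3
    rw [hk, pow_succ, ← hk]
    have h4 : G s (2 * k) 0 * C ≤ G s N 0 * C := mul_le_mul_of_nonneg_right h3 hC0.le
    have h5 : lam u ^ (2 * k) ≤ G s N 0 * C := this.trans h4
    calc lam u ^ (2 * k) * lam u ≤ (G s N 0 * C) * lam u :=
          mul_le_mul_of_nonneg_right h5 hlam0.le
      _ = G s N 0 * (lam u * C) := by ring

end Pool.Agent.Q314.PS
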