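import Pool.Agent.Q314.PS.Stmts

set_option autoImplicit false

namespace Pool.Agent.Q314.PS

private theorem filter_eq {M N : ℕ} (σ : Fin M ↪o Fin N) :
    (List.finRange N).filter (fun i => ind σ i) = (List.finRange M).map σ := by
  have h1 : ((List.finRange N).filter (fun i => ind σ i)).Pairwise (· < ·) :=
    (List.pairwise_lt_finRange N).filter _
  have h2 : ((List.finRange M).map σ).Pairwise (· < ·) := by
    rw [List.pairwise_map]
    exact (List.pairwise_lt_finRange M).imp (fun h => σ.strictMono h)
  have hp : ((List.finRange N).filter (fun i => ind σ i)).Perm ((List.finRange M).map σ) := by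
    refine (List.perm_ext_iff_of_nodup (h1.imp ne_of_lt) (h2.imp ne_of_lt)).2 ?_
    intro a
    simp [ind]
  exact hp.eq_of_pairwise (fun a b _ _ hab hba => absurd hab (not_lt_of_gt hba)) h1 h2

/-- The letters picked by the image of `σ`. -/
theorem taskSel : TaskSel := by
  intro N M σ X
  have hz : (List.ofFn (ind σ)).zip (List.ofFn X) =
      (List.finRange N).map (fun i => (ind σ i, X i)) := by
    rw [List.ofFn_eq_map, List.ofFn_eq_map, List.zip_map']
  unfold sel
  rw [hz, List.filter_map, List.map_map]
  have h3 := filter_eq σ
  rw [show ((fun p : Bool × Bool => p.1) ∘ fun i => (ind σ i, X i)) = (fun i => ind σ i) from rfl,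
    h3, List.map_map, List.ofFn_eq_map]
  rfl

end Pool.Agent.Q314.PS
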