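import Pool.Agent.Q314.PS.Stmts

set_option autoImplicit false

namespace Pool.Agent.Q314.PS.TaskSuper

open Filter Topology

/-- four exponentials -/
theorem key (c1 c2 c3 c4 k1 k2 k3 k4 Λ σ K ε : ℝ) (h1 : 0 ≤ c1) (h2 : 0 ≤ c2) (h3 : 0 ≤ c3)
    (h4 : 0 ≤ c4) (hΛ : c1 + c2 + c3 + c4 = Λ) (hσ : c1 * k1 + c2 * k2 + c3 * k3 + c4 * k4 = Λ * σ)
    (b1 : |k1| ≤ K) (b2 : |k2| ≤ K) (b3 : |k3| ≤ K) (b4 : |k4| ≤ K) (hε : 0 ≤ ε) (hK : ε * K ≤ 1) :
    c1 * Real.exp (ε * k1) + c2 * Real.exp (ε * k2) + c3 * Real.exp (ε * k3) +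
      c4 * Real.exp (ε * k4) ≤ Λ * Real.exp (σ * ε + K ^ 2 * ε ^ 2) := by
  have hb : ∀ k : ℝ, |k| ≤ K → Real.exp (ε * k) ≤ 1 + ε * k + K ^ 2 * ε ^ 2 := by
    intro k hk
    have e1 : |ε * k| ≤ 1 := by
      rw [abs_mul, abs_of_nonneg hε]
      exact (mul_le_mul_of_nonneg_left hk hε).trans hK
    have e2 := Real.abs_exp_sub_one_sub_id_le e1
    have e3 := (abs_le.1 e2).2
    have e4 : k ^ 2 ≤ K ^ 2 := by
      rw [← sq_abs k]
      exact pow_le_pow_left₀ (abs_nonneg k) hk 2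
    have e5 : (ε * k) ^ 2 ≤ K ^ 2 * ε ^ 2 := by
      rw [mul_pow, mul_comm]
      exact mul_le_mul_of_nonneg_right e4 (sq_nonneg ε)
    linarith
  have hΛ0 : 0 ≤ Λ := by rw [← hΛ]; positivity
  calc c1 * Real.exp (ε * k1) + c2 * Real.exp (ε * k2) + c3 * Real.exp (ε * k3) +
      c4 * Real.exp (ε * k4)
      ≤ c1 * (1 + ε * k1 + K ^ 2 * ε ^ 2) + c2 * (1 + ε * k2 + K ^ 2 * ε ^ 2) +
        c3 * (1 + ε * k3 + K ^ 2 * ε ^ 2) + c4 * (1 + ε * k4 + K ^ 2 * ε ^ 2) := by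
        have := mul_le_mul_of_nonneg_left (hb k1 b1) h1
        have := mul_le_mul_of_nonneg_left (hb k2 b2) h2
        have := mul_le_mul_of_nonneg_left (hb k3 b3) h3
        have := mul_le_mul_of_nonneg_left (hb k4 b4) h4
        linarith
    _ = (c1 + c2 + c3 + c4) * (1 + K ^ 2 * ε ^ 2) + ε * (c1 * k1 + c2 * k2 + c3 * k3 + c4 * k4) := by
        ring
    _ = Λ * ((σ * ε + K ^ 2 * ε ^ 2) + 1) := by rw [hΛ, hσ]; ring
    _ ≤ Λ * Real.exp (σ * ε + K ^ 2 * ε ^ 2) :=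
        mul_le_mul_of_nonneg_left (Real.add_one_le_exp _) hΛ0

/-- the function -/
noncomputable def HH (r u ε κp κm : ℝ) (D : ℤ) (l : Bool) : ℝ :=
  if 0 < D then (r * Real.exp (-(ε * κp))) ^ D.toNat *
    Real.exp (ε * ((if l then 1 else 0) * (u / (1 + u))))
  else (r * Real.exp (-(ε * κm))) ^ (-D).toNat * Real.exp (ε * ((if l then 1 else 0) * u))

theorem HH_succ (r u ε κp κm : ℝ) (n : ℕ) (l : Bool) : HH r u ε κp κm ((n : ℤ) + 1) l =
    (r * Real.exp (-(ε * κp))) ^ (n + 1) *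
      Real.exp (ε * ((if l then 1 else 0) * (u / (1 + u)))) := by
  unfold HH
  rw [if_pos (by positivity)]
  congr 2

theorem HH_nat (r u ε κp κm : ℝ) (n : ℕ) : HH r u ε κp κm (n : ℤ) false =
    (r * Real.exp (-(ε * κp))) ^ n := by
  cases n with
  | zero => simp [HH]
  | succ n =>
    push_cast
    rw [HH_succ]
    simp

theorem HH_neg (r u ε κp κm : ℝ) (n : ℕ) (l : Bool) : HH r u ε κp κm (-(n : ℤ)) l =
    (r * Real.exp (-(ε * κm))) ^ n * Real.exp (ε * ((if l then 1 else 0) * u)) := by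
  unfold HH
  rw [if_neg (by have : (0 : ℤ) ≤ n := by positivity
                 omega)]
  congr 2
  simp

/-- the exponents -/
noncomputable def kp (u : ℝ) : ℝ := (rho u * (1 + u) - u ^ 2 / (1 + u)) / u ^ 2

noncomputable def km (u : ℝ) : ℝ := (rho u * (1 + u) - u ^ 2 * (1 + u)) / u ^ 2

theorem id_pos (u L : ℝ) (hu0 : 0 < u) (hu1 : u < 1) :
    1 * 0 + u / (1 - u) * kp u + u * (L + u / (1 + u) - kp u) + u ^ 2 / (1 - u) * (L + u / (1 + u)) =
      lam u * (rho u + L * (u / (1 + u))) := by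
  have h1 : (1 - u) ≠ 0 := by linarith
  have h2 : (1 + u) ≠ 0 := by linarith
  have h3 : (2 - u) ≠ 0 := by linarith
  have h4 : u ≠ 0 := hu0.ne'
  unfold kp lam rho
  field_simp
  ring

theorem id_zero (u L : ℝ) (hu0 : 0 < u) (hu1 : u < 1) :
    1 * 0 + 2 * u ^ 2 / (1 - u) * (L + u) + u * (L + u / (1 + u) - kp u) + u * (-km u) =
      lam u * (rho u + L * u) := by
  have h1 : (1 - u) ≠ 0 := by linarith
  have h2 : (1 + u) ≠ 0 := by linarith
  have h3 : (2 - u) ≠ 0 := by linarith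
  have h4 : u ≠ 0 := hu0.ne'
  unfold kp km lam rho
  field_simp
  ring

theorem id_neg (u L : ℝ) (hu0 : 0 < u) (hu1 : u < 1) :
    1 * 0 + u * (-km u) + u / (1 - u) * (km u + L + u) + u ^ 2 / (1 - u) * (L + u) =
      lam u * (rho u + L * u) := by
  have h1 : (1 - u) ≠ 0 := by linarith
  have h2 : (1 + u) ≠ 0 := by linarith
  have h3 : (2 - u) ≠ 0 := by linarith
  have h4 : u ≠ 0 := hu0.ne'
  unfold km lam rho
  field_simp
  ring

theorem HH_zero (r u ε κp κm : ℝ) (l : Bool) : HH r u ε κp κm 0 l =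
    Real.exp (ε * ((if l then 1 else 0) * u)) := by
  simp [HH]

theorem main_ineq (u : ℝ) (hu0 : 0 < u) (hu1 : u < 1) (κp κm K : ℝ)
    (hκp : κp = kp u) (hκm : κm = km u)
    (hK : K = 2 + |κp| + |κm|) (ε : ℝ) (hε : 0 ≤ ε) (hεK : ε * K ≤ 1) (z r : ℝ) (hr : 0 < r)
    (hz2 : z ^ 2 = 2 * u ^ 2 / (1 - u)) (hzr : z * r = u) (hz : 1 / 2 * z = u / (1 - u) * r)
    (D : ℤ) (l : Bool) :
    ∑ a : Bool, ∑ b : Bool, cst D a b * z ^ (a.toNat + b.toNat) *
      Real.exp (ε * (if l && a then 1 else 0)) * HH r u ε κp κm (D + stp a b) a ≤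
      lam u * Real.exp (rho u * ε + K ^ 2 * ε ^ 2) * HH r u ε κp κm D l := by
  obtain ⟨L, hL⟩ : ∃ L : ℝ, L = if l then 1 else 0 := ⟨_, rfl⟩
  have hL0 : 0 ≤ L := by rw [hL]; split_ifs <;> norm_num
  have hL1 : L ≤ 1 := by rw [hL]; split_ifs <;> norm_num
  have e1 : (if (l && true) = true then (1 : ℝ) else 0) = L := by rw [hL, Bool.and_true]
  have e2 : (if (l && false) = true then (1 : ℝ) else 0) = 0 := by simp
  have ha0 : 0 ≤ u / (1 + u) := by positivity
  have ha1 : u / (1 + u) ≤ 1 := by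
    rw [div_le_one (by linarith)]
    linarith
  have h1u : 0 < 1 - u := by linarith
  have hc1 : 0 ≤ u / (1 - u) := by positivity
  have hc2 : 0 ≤ u ^ 2 / (1 - u) := by positivity
  have hp := abs_nonneg κp
  have hm := abs_nonneg κm
  have hp1 := le_abs_self κp
  have hp2 := neg_abs_le κp
  have hm1 := le_abs_self κm
  have hm2 := neg_abs_le κm
  have t1 : 1 / 2 * z ^ 2 = u ^ 2 / (1 - u) := by rw [hz2]; ring
  have hlam1 : 1 + u / (1 - u) + u + u ^ 2 / (1 - u) = lam u := by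
    unfold lam
    field_simp
    ring
  have hlam0 : 1 + 2 * u ^ 2 / (1 - u) + u + u = lam u := by
    unfold lam
    field_simp
    ring
  have hlam2 : 1 + u + u / (1 - u) + u ^ 2 / (1 - u) = lam u := by rw [← hlam1]; ring
  rw [Fintype.sum_bool, Fintype.sum_bool, Fintype.sum_bool, e1, e2]
  obtain ⟨n, hn⟩ | hD | ⟨n, hn⟩ : (∃ n : ℕ, D = (n : ℤ) + 1) ∨ D = 0 ∨ ∃ n : ℕ, D = -((n : ℤ) + 1) := by
    rcases lt_trichotomy D 0 with h | h | h
    · right; right
      exact ⟨(-D - 1).toNat, by omega⟩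
    · right; left
      exact h
    · left
      exact ⟨(D - 1).toNat, by omega⟩
  · subst hn
    have hn0 : (0 : ℤ) ≤ n := by positivity
    have c11 : cst ((n : ℤ) + 1) true true = 1 / 2 := by
      simp only [cst]; rw [if_neg (by omega)]
    have c10 : cst ((n : ℤ) + 1) true false = 1 := by
      simp only [cst]; rw [if_pos (by omega)]
    have c01 : cst ((n : ℤ) + 1) false true = 1 / 2 := by
      simp only [cst]; rw [if_neg (by omega)]
    have c00 : cst ((n : ℤ) + 1) false false = 1 := by simp only [cst]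
    have s11 : (n : ℤ) + 1 + stp true true = (n : ℤ) + 1 := by simp [stp]
    have s10 : (n : ℤ) + 1 + stp true false = ((n + 1 : ℕ) : ℤ) + 1 := by simp [stp]
    have s01 : (n : ℤ) + 1 + stp false true = (n : ℤ) := by simp [stp]
    have s00 : (n : ℤ) + 1 + stp false false = (n : ℤ) + 1 := by simp [stp]
    rw [c11, c10, c01, c00, s11, s10, s01, s00, HH_succ, HH_succ, HH_nat, HH_succ, HH_succ, ← hL]
    simp only [Bool.toNat_true, Bool.toNat_false, if_true, one_mul, Bool.false_eq_true, if_false,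
      zero_mul, mul_zero, Real.exp_zero, mul_one]
    have hkey := key 1 (u / (1 - u)) u (u ^ 2 / (1 - u)) 0 κp (L + u / (1 + u) - κp)
      (L + u / (1 + u)) (lam u) (rho u + L * (u / (1 + u))) K ε (by norm_num) hc1 hu0.le hc2 hlam1
      (by rw [hκp]; exact id_pos u L hu0 hu1) (by rw [abs_zero, hK]; linarith)
      (by rw [hK]; linarith) (abs_le.2 ⟨by rw [hK]; linarith, by rw [hK]; linarith⟩)
      (abs_le.2 ⟨by rw [hK]; linarith, by rw [hK]; linarith⟩) hε hεK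
    have x1 : Real.exp (ε * (L + u / (1 + u) - κp)) =
        Real.exp (ε * L) * Real.exp (ε * (u / (1 + u))) * Real.exp (-(ε * κp)) := by
      rw [← Real.exp_add, ← Real.exp_add]; congr 1; ring
    have x2 : Real.exp (ε * (L + u / (1 + u))) =
        Real.exp (ε * L) * Real.exp (ε * (u / (1 + u))) := by
      rw [← Real.exp_add]; congr 1; ring
    have x3 : Real.exp (-(ε * κp)) * Real.exp (ε * κp) = 1 := by
      rw [← Real.exp_add]; simp
    have x4 : Real.exp ((rho u + L * (u / (1 + u))) * ε + K ^ 2 * ε ^ 2) =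
        Real.exp (rho u * ε + K ^ 2 * ε ^ 2) * Real.exp (ε * (L * (u / (1 + u)))) := by
      rw [← Real.exp_add]; congr 1; ring
    rw [x1, x2, x4] at hkey
    simp only [mul_zero, Real.exp_zero, mul_one] at hkey
    obtain ⟨A, hA⟩ : ∃ A, A = Real.exp (ε * L) := ⟨_, rfl⟩
    obtain ⟨B, hB⟩ : ∃ B, B = Real.exp (ε * (u / (1 + u))) := ⟨_, rfl⟩
    obtain ⟨Q, hQ⟩ : ∃ Q, Q = Real.exp (-(ε * κp)) := ⟨_, rfl⟩
    obtain ⟨Q', hQ'⟩ : ∃ Q', Q' = Real.exp (ε * κp) := ⟨_, rfl⟩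
    rw [← hA, ← hB, ← hQ, ← hQ'] at hkey
    rw [← hA, ← hB, ← hQ]
    rw [← hQ, ← hQ'] at x3
    have t2 : z * (r * Q) ^ (n + 2) = u * Q * (r * Q) ^ (n + 1) := by
      rw [pow_succ (r * Q) (n + 1), ← hzr]; ring
    have t3 : 1 / 2 * z * (r * Q) ^ n = u / (1 - u) * Q' * (r * Q) ^ (n + 1) := by
      rw [pow_succ, hz]
      linear_combination (-(u / (1 - u)) * r * (r * Q) ^ n) * x3
    have hqpos : 0 ≤ (r * Q) ^ (n + 1) := by
      rw [hQ]; positivity
    have hfin := mul_le_mul_of_nonneg_left hkey hqpos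
    refine le_trans (le_of_eq ?_) (hfin.trans (le_of_eq ?_))
    · linear_combination (A * B * (r * Q) ^ (n + 1)) * t1 + (A * B) * t2 + t3
    · ring
  · subst hD
    have c11 : cst 0 true true = 1 := by simp [cst]
    have c10 : cst 0 true false = 1 := by simp [cst]
    have c01 : cst 0 false true = 1 := by simp [cst]
    have c00 : cst 0 false false = 1 := by simp only [cst]
    have s11 : (0 : ℤ) + stp true true = 0 := by simp [stp]
    have s10 : (0 : ℤ) + stp true false = ((0 : ℕ) : ℤ) + 1 := by simp [stp]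
    have s01 : (0 : ℤ) + stp false true = -((1 : ℕ) : ℤ) := by simp [stp]
    have s00 : (0 : ℤ) + stp false false = 0 := by simp [stp]
    rw [c11, c10, c01, c00, s11, s10, s01, s00, HH_succ, HH_neg, HH_zero, HH_zero, HH_zero, ← hL]
    simp only [Bool.toNat_true, Bool.toNat_false, if_true, one_mul, Bool.false_eq_true, if_false,
      zero_mul, mul_zero, Real.exp_zero, mul_one]
    have hkey := key 1 (2 * u ^ 2 / (1 - u)) u u 0 (L + u) (L + u / (1 + u) - κp)
      (-κm) (lam u) (rho u + L * u) K ε (by norm_num) (by positivity) hu0.le hu0.le hlam0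
      (by rw [hκp, hκm]; exact id_zero u L hu0 hu1) (by rw [abs_zero, hK]; linarith)
      (abs_le.2 ⟨by rw [hK]; linarith, by rw [hK]; linarith⟩)
      (abs_le.2 ⟨by rw [hK]; linarith, by rw [hK]; linarith⟩)
      (by rw [abs_neg, hK]; linarith) hε hεK
    have x1 : Real.exp (ε * (L + u / (1 + u) - κp)) =
        Real.exp (ε * L) * Real.exp (ε * (u / (1 + u))) * Real.exp (-(ε * κp)) := by
      rw [← Real.exp_add, ← Real.exp_add]; congr 1; ring
    have x2 : Real.exp (ε * (L + u)) = Real.exp (ε * L) * Real.exp (ε * u) := by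
      rw [← Real.exp_add]; congr 1; ring
    have x3 : Real.exp (ε * (-κm)) = Real.exp (-(ε * κm)) := by
      congr 1; ring
    have x4 : Real.exp ((rho u + L * u) * ε + K ^ 2 * ε ^ 2) =
        Real.exp (rho u * ε + K ^ 2 * ε ^ 2) * Real.exp (ε * (L * u)) := by
      rw [← Real.exp_add]; congr 1; ring
    rw [x1, x2, x3, x4] at hkey
    simp only [mul_zero, Real.exp_zero, mul_one] at hkey
    obtain ⟨A, hA⟩ : ∃ A, A = Real.exp (ε * L) := ⟨_, rfl⟩
    obtain ⟨B, hB⟩ : ∃ B, B = Real.exp (ε * (u / (1 + u))) := ⟨_, rfl⟩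
    obtain ⟨B', hB'⟩ : ∃ B', B' = Real.exp (ε * u) := ⟨_, rfl⟩
    obtain ⟨Q, hQ⟩ : ∃ Q, Q = Real.exp (-(ε * κp)) := ⟨_, rfl⟩
    obtain ⟨Q', hQ'⟩ : ∃ Q', Q' = Real.exp (-(ε * κm)) := ⟨_, rfl⟩
    rw [← hA, ← hB, ← hB', ← hQ, ← hQ'] at hkey
    rw [← hA, ← hB, ← hB', ← hQ, ← hQ']
    refine le_trans (le_of_eq ?_) (hkey.trans (le_of_eq ?_))
    · linear_combination (A * B') * hz2 + (A * B * Q + Q') * hzr
    · ring
  · subst hn
    have hn0 : (0 : ℤ) ≤ n := by positivity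
    have c11 : cst (-((n : ℤ) + 1)) true true = 1 / 2 := by
      simp only [cst]; rw [if_neg (by omega)]
    have c10 : cst (-((n : ℤ) + 1)) true false = 1 / 2 := by
      simp only [cst]; rw [if_neg (by omega)]
    have c01 : cst (-((n : ℤ) + 1)) false true = 1 := by
      simp only [cst]; rw [if_pos (by omega)]
    have c00 : cst (-((n : ℤ) + 1)) false false = 1 := by simp only [cst]
    have s11 : -((n : ℤ) + 1) + stp true true = -((n + 1 : ℕ) : ℤ) := by simp [stp]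
    have s10 : -((n : ℤ) + 1) + stp true false = -((n : ℕ) : ℤ) := by simp [stp]
    have s01 : -((n : ℤ) + 1) + stp false true = -((n + 2 : ℕ) : ℤ) := by
      simp [stp]; ring
    have s00 : -((n : ℤ) + 1) + stp false false = -((n + 1 : ℕ) : ℤ) := by simp [stp]
    have sD : -((n : ℤ) + 1) = -((n + 1 : ℕ) : ℤ) := by push_cast; ring
    rw [c11, c10, c01, c00, s11, s10, s01, s00, sD, HH_neg, HH_neg, HH_neg, HH_neg, HH_neg, ← hL]
    simp only [Bool.toNat_true, Bool.toNat_false, if_true, one_mul, Bool.false_eq_true, if_false,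
      zero_mul, mul_zero, Real.exp_zero, mul_one]
    have hkey := key 1 u (u / (1 - u)) (u ^ 2 / (1 - u)) 0 (-κm) (κm + L + u)
      (L + u) (lam u) (rho u + L * u) K ε (by norm_num) hu0.le hc1 hc2 hlam2
      (by rw [hκm]; exact id_neg u L hu0 hu1) (by rw [abs_zero, hK]; linarith)
      (by rw [abs_neg, hK]; linarith)
      (abs_le.2 ⟨by rw [hK]; linarith, by rw [hK]; linarith⟩)
      (abs_le.2 ⟨by rw [hK]; linarith, by rw [hK]; linarith⟩) hε hεK
    have x1 : Real.exp (ε * (κm + L + u)) =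
        Real.exp (ε * L) * Real.exp (ε * u) * Real.exp (ε * κm) := by
      rw [← Real.exp_add, ← Real.exp_add]; congr 1; ring
    have x2 : Real.exp (ε * (L + u)) = Real.exp (ε * L) * Real.exp (ε * u) := by
      rw [← Real.exp_add]; congr 1; ring
    have x3 : Real.exp (ε * (-κm)) = Real.exp (-(ε * κm)) := by
      congr 1; ring
    have x5 : Real.exp (-(ε * κm)) * Real.exp (ε * κm) = 1 := by
      rw [← Real.exp_add]; simp
    have x4 : Real.exp ((rho u + L * u) * ε + K ^ 2 * ε ^ 2) =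
        Real.exp (rho u * ε + K ^ 2 * ε ^ 2) * Real.exp (ε * (L * u)) := by
      rw [← Real.exp_add]; congr 1; ring
    rw [x1, x2, x3, x4] at hkey
    simp only [mul_zero, Real.exp_zero, mul_one] at hkey
    obtain ⟨A, hA⟩ : ∃ A, A = Real.exp (ε * L) := ⟨_, rfl⟩
    obtain ⟨B, hB⟩ : ∃ B, B = Real.exp (ε * u) := ⟨_, rfl⟩
    obtain ⟨Q, hQ⟩ : ∃ Q, Q = Real.exp (-(ε * κm)) := ⟨_, rfl⟩
    obtain ⟨Q', hQ'⟩ : ∃ Q', Q' = Real.exp (ε * κm) := ⟨_, rfl⟩
    rw [← hA, ← hB, ← hQ, ← hQ'] at hkey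
    rw [← hA, ← hB, ← hQ]
    rw [← hQ, ← hQ'] at x5
    have t2 : z * (r * Q) ^ (n + 2) = u * Q * (r * Q) ^ (n + 1) := by
      rw [pow_succ (r * Q) (n + 1), ← hzr]; ring
    have t3 : 1 / 2 * z * (r * Q) ^ n = u / (1 - u) * Q' * (r * Q) ^ (n + 1) := by
      rw [pow_succ, hz]
      linear_combination (-(u / (1 - u)) * r * (r * Q) ^ n) * x5
    have hqpos : 0 ≤ (r * Q) ^ (n + 1) := by
      rw [hQ]; positivity
    have hfin := mul_le_mul_of_nonneg_left hkey hqpos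
    refine le_trans (le_of_eq ?_) (hfin.trans (le_of_eq ?_))
    · linear_combination (A * B * (r * Q) ^ (n + 1)) * t1 + t2 + (A * B) * t3
    · ring

theorem taskSuper : Pool.Agent.Q314.PS.TaskSuper := by
  intro u hu0 hu1
  have h1u : 0 < 1 - u := by linarith
  obtain ⟨K, hK⟩ : ∃ K, K = 2 + |kp u| + |km u| := ⟨_, rfl⟩
  have hK0 : 0 < K := by
    rw [hK]
    positivity
  refine ⟨K ^ 2, by positivity, 1 / K, by positivity, ?_⟩
  intro ε hε hε1
  have hεK : ε * K ≤ 1 := by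
    calc ε * K ≤ 1 / K * K := mul_le_mul_of_nonneg_right hε1 hK0.le
      _ = 1 := by field_simp
  have hy : 0 < yy u := by unfold yy; positivity
  have hr2 : 0 < (1 - u) / 2 := by positivity
  have hr : 0 < Real.sqrt ((1 - u) / 2) := Real.sqrt_pos.2 hr2
  have hz2 : Real.sqrt (yy u) ^ 2 = 2 * u ^ 2 / (1 - u) := by
    rw [Real.sq_sqrt hy.le]; rfl
  have hzr : Real.sqrt (yy u) * Real.sqrt ((1 - u) / 2) = u := by
    rw [← Real.sqrt_mul hy.le]
    have : yy u * ((1 - u) / 2) = u ^ 2 := by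
      unfold yy
      field_simp
    rw [this, Real.sqrt_sq hu0.le]
  have hrr : Real.sqrt ((1 - u) / 2) ^ 2 = (1 - u) / 2 := Real.sq_sqrt hr2.le
  have hz : 1 / 2 * Real.sqrt (yy u) = u / (1 - u) * Real.sqrt ((1 - u) / 2) := by
    have h1 : Real.sqrt ((1 - u) / 2) ≠ 0 := hr.ne'
    have h2 : (1 - u) ≠ 0 := h1u.ne'
    apply mul_right_cancel₀ h1
    calc 1 / 2 * Real.sqrt (yy u) * Real.sqrt ((1 - u) / 2)
        = 1 / 2 * (Real.sqrt (yy u) * Real.sqrt ((1 - u) / 2)) := by ring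
      _ = 1 / 2 * u := by rw [hzr]
      _ = u / (1 - u) * ((1 - u) / 2) := by field_simp
      _ = u / (1 - u) * Real.sqrt ((1 - u) / 2) * Real.sqrt ((1 - u) / 2) := by
          rw [mul_assoc, ← sq, hrr]
  refine ⟨HH (Real.sqrt ((1 - u) / 2)) u ε (kp u) (km u), ?_, ?_, ?_, ?_⟩
  · intro D l
    unfold HH
    split_ifs <;> positivity
  · intro l
    rw [HH_zero]
    apply Real.one_le_exp
    cases l <;> simp [hε, hu0.le, mul_nonneg]
  · rw [HH_zero]
    simp
  · intro D l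
    exact main_ineq u hu0 hu1 (kp u) (km u) K rfl rfl hK ε hε hεK _ _ hr hz2 hzr hz D l

end Pool.Agent.Q314.PS.TaskSuper

namespace Pool.Agent.Q314.PS

theorem taskSuper : TaskSuper := Pool.Agent.Q314.PS.TaskSuper.taskSuper

end Pool.Agent.Q314.PS
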