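import Pool.Agent.Q314.PS.Stmts

set_option autoImplicit false

namespace Pool.Agent.Q314.PS

theorem taskT0 (hP : TaskPath) : TaskT0 := by
  intro u hu0 hu1 N M
  have h1u : 0 < 1 - u := by linarith
  have hy : 0 < yy u := by unfold yy; positivity
  set z := Real.sqrt (yy u) with hz
  set r := Real.sqrt ((1 - u) / 2) with hr
  have hz0 : 0 < z := Real.sqrt_pos.2 hy
  have hr0 : 0 < r := Real.sqrt_pos.2 (by positivity)
  have hz2 : z ^ 2 = yy u := Real.sq_sqrt hy.le
  have hr2 : r ^ 2 = (1 - u) / 2 := Real.sq_sqrt (by positivity)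
  have hzr : z * r = u := by
    rw [hz, hr, ← Real.sqrt_mul hy.le]
    rw [show yy u * ((1 - u) / 2) = u ^ 2 by unfold yy; field_simp]
    exact Real.sqrt_sq hu0.le
  have hstep : ∀ k : ℕ, z * r ^ k = 2 * u / (1 - u) * r ^ (k + 1) := by
    intro k
    have e1 : z * r ^ k * r ^ 2 = u * r ^ (k + 1) := by
      rw [← hzr]; ring
    rw [hr2] at e1
    rw [div_mul_eq_mul_div, eq_div_iff h1u.ne']
    linarith
  have hstep2 : ∀ k : ℕ, z * r ^ (k + 2) = u * r ^ (k + 1) := by
    intro k
    rw [← hzr]; ring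
  have key := hP 0 z (lam u) 1 (fun D _ => r ^ D.natAbs) hz0
    (by unfold lam; positivity) one_pos (fun D l => by positivity) (fun l => by simp) ?_ N M
  · have e : z ^ (2 * M) = yy u ^ M := by rw [pow_mul, hz2]
    rw [e] at key
    simpa using key
  · intro D l
    have hsum : ∑ a : Bool, ∑ b : Bool, cst D a b * z ^ (a.toNat + b.toNat) *
        Real.exp (0 * (if l && a then 1 else 0)) * r ^ (D + stp a b).natAbs =
        (if D = 0 then 1 else 1 / 2) * yy u * r ^ D.natAbs +
        (if 0 ≤ D then 1 else 1 / 2) * (z * r ^ (D + 1).natAbs) +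
        ((if D ≤ 0 then 1 else 1 / 2) * (z * r ^ (D - 1).natAbs) + r ^ D.natAbs) := by
      simp only [Fintype.sum_bool, cst, stp, zero_mul, Real.exp_zero, mul_one, Bool.toNat_true,
        Bool.toNat_false, if_true]
      norm_num
      rw [← hz2, ← sub_eq_add_neg]
      split_ifs <;> ring
    have hgoal : (if D = 0 then 1 else 1 / 2) * yy u * r ^ D.natAbs +
        (if 0 ≤ D then 1 else 1 / 2) * (z * r ^ (D + 1).natAbs) +
        ((if D ≤ 0 then 1 else 1 / 2) * (z * r ^ (D - 1).natAbs) + r ^ D.natAbs) =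
        lam u * r ^ D.natAbs := by
      rcases lt_trichotomy D 0 with hD | hD | hD
      · rw [if_neg hD.ne, if_neg (not_le.2 hD), if_pos hD.le]
        obtain ⟨k, hk⟩ : ∃ k : ℕ, (D + 1).natAbs = k := ⟨_, rfl⟩
        have hk1 : D.natAbs = k + 1 := by omega
        have hk2 : (D - 1).natAbs = k + 2 := by omega
        rw [hk, hk1, hk2, hstep k, hstep2 k]
        unfold yy lam
        field_simp
        ring
      · subst hD
        rw [if_pos rfl, if_pos le_rfl]
        have e1 : ((0 : ℤ) + 1).natAbs = 1 := rfl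
        have e2 : ((0 : ℤ) - 1).natAbs = 1 := rfl
        rw [e1, e2, Int.natAbs_zero, pow_one, pow_zero, hzr]
        unfold yy lam
        field_simp
        ring
      · rw [if_neg hD.ne', if_pos hD.le, if_neg (not_le.2 hD)]
        obtain ⟨k, hk⟩ : ∃ k : ℕ, (D - 1).natAbs = k := ⟨_, rfl⟩
        have hk1 : D.natAbs = k + 1 := by omega
        have hk2 : (D + 1).natAbs = k + 2 := by omega
        rw [hk, hk1, hk2, hstep k, hstep2 k]
        unfold yy lam
        field_simp
        ring
    exact (hsum.trans hgoal).le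

end Pool.Agent.Q314.PS
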